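import Mathlib

/-! The sum of the values of a positive definite function with finite support is nonnegative. -/

set_option autoImplicit false

namespace Pool.Agent.V8H35.GS

open Filter Topology

section

variable {B : Type*} [AddCommGroup B]

open Classical in
/-- the image of a box -/
noncomputable def box (R : Finset B) (N : ℕ) : Finset B :=
  (Fintype.piFinset fun _ : R => Finset.range N).image fun m => ∑ c : R, m c • (c : B)

theorem box_card (R : Finset B) (N : ℕ) : (box R N).card ≤ N ^ R.card := by
  classical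
  unfold box
  refine Finset.card_image_le.trans ?_
  rw [Fintype.card_piFinset, Finset.prod_const, Finset.card_range, Finset.card_univ,
    Fintype.card_coe]

theorem box_mono (R : Finset B) (N : ℕ) : box R N ⊆ box R (N + 1) := by
  classical
  unfold box
  refine Finset.image_subset_image ?_
  intro m hm
  rw [Fintype.mem_piFinset] at hm ⊢
  intro c
  have := hm c
  rw [Finset.mem_range] at this ⊢
  omega

theorem box_add (R : Finset B) (N : ℕ) {c : B} (hc : c ∈ R) {x : B} (hx : x ∈ box R N) :
    x + c ∈ box R (N + 1) := by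
  classical
  unfold box at hx ⊢
  rw [Finset.mem_image] at hx ⊢
  obtain ⟨m, hm, rfl⟩ := hx
  refine ⟨fun d => m d + if d = ⟨c, hc⟩ then 1 else 0, ?_, ?_⟩
  · rw [Fintype.mem_piFinset] at hm ⊢
    intro d
    have := hm d
    rw [Finset.mem_range] at this ⊢
    split_ifs <;> omega
  · simp only [add_smul, Finset.sum_add_distrib]
    congr 1
    rw [Finset.sum_eq_single (⟨c, hc⟩ : R)]
    · simp
    · intro d _ hd
      simp [hd]
    · intro h
      exact absurd (Finset.mem_univ _) h

theorem box_pos (R : Finset B) {N : ℕ} (hN : 1 ≤ N) : 1 ≤ (box R N).card := by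
  classical
  rw [Nat.one_le_iff_ne_zero, Finset.card_ne_zero]
  unfold box
  rw [Finset.image_nonempty]
  refine ⟨fun _ => 0, ?_⟩
  rw [Fintype.mem_piFinset]
  intro _
  rw [Finset.mem_range]
  omega

open Classical in
theorem box_sum (φ : B → ℂ) (R F : Finset B) (hR : ∀ c, φ c ≠ 0 → c ∈ R) :
    ∑ x ∈ F, ∑ y ∈ F, φ (x - y) =
      ∑ c ∈ R, φ c * ((F.filter fun y => y + c ∈ F).card : ℂ) := by
  rw [Finset.sum_comm]
  have h1 : ∀ y ∈ F, ∑ x ∈ F, φ (x - y) = ∑ c ∈ R, if y + c ∈ F then φ c else 0 := by
    intro y hy
    rw [← Finset.sum_filter]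
    refine (Finset.sum_of_injOn (fun c => y + c) ?_ ?_ ?_ ?_).symm
    · intro a _ b _ hab
      exact add_left_cancel hab
    · intro c hc
      simp only [Finset.coe_filter, Set.mem_ofPred_eq] at hc
      exact hc.2
    · intro x hx hx2
      by_contra hne
      apply hx2
      refine ⟨x - y, ?_, by simp⟩
      simp only [Finset.coe_filter, Set.mem_ofPred_eq]
      refine ⟨hR _ hne, by simpa using hx⟩
    · intro c _
      simp
  rw [Finset.sum_congr rfl h1, Finset.sum_comm]
  refine Finset.sum_congr rfl fun c _ => ?_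
  rw [← Finset.sum_filter, Finset.sum_const, nsmul_eq_mul, mul_comm]

theorem folner (φ : B → ℂ) (R : Finset B) (hR : ∀ c, φ c ≠ 0 → c ∈ R)
    (hpos : ∀ F : Finset B, 0 ≤ (∑ x ∈ F, ∑ y ∈ F, φ (x - y)).re) : 0 ≤ (∑ c ∈ R, φ c).re := by
  classical
  by_contra hcon
  push Not at hcon
  set η : ℝ := -(∑ c ∈ R, φ c).re with hη
  have hη0 : 0 < η := by linarith
  set M : ℝ := ∑ c ∈ R, ‖φ c‖ with hM
  have hM0 : 0 < M := by
    have h1 : ‖∑ c ∈ R, φ c‖ ≤ M := norm_sum_le _ _
    have h2 := Complex.abs_re_le_norm (∑ c ∈ R, φ c)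
    have h3 : η ≤ |(∑ c ∈ R, φ c).re| := by
      rw [hη]
      exact neg_le_abs _
    linarith
  set a : ℕ → ℝ := fun N => (box R N).card with ha
  have hstep : ∀ N, η * a N ≤ M * (a (N + 1) - a N) := by
    intro N
    have h1 := hpos (box R N)
    rw [box_sum φ R _ hR, Complex.re_sum] at h1
    have h2 : ∀ c ∈ R, (φ c * (((box R N).filter fun y => y + c ∈ box R N).card : ℂ)).re ≤
        (φ c).re * a N + ‖φ c‖ * (a (N + 1) - a N) := by
      intro c hc
      set F := box R N with hF
      have h3 : ((F.filter fun y => y + c ∈ F).card : ℝ) =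
          a N - ((F.filter fun y => y + c ∉ F).card : ℝ) := by
        have := Finset.card_filter_add_card_filter_not (s := F) (fun y => y + c ∈ F)
        have h4 : ((F.filter fun y => y + c ∈ F).card : ℝ) +
          ((F.filter fun y => y + c ∉ F).card : ℝ) = F.card := by exact_mod_cast this
        simp only [ha]
        linarith
      have h5 : ((F.filter fun y => y + c ∉ F).card : ℝ) ≤ a (N + 1) - a N := by
        have h6 : (F.filter fun y => y + c ∉ F).card ≤ (box R (N + 1) \ F).card := by
          refine Finset.card_le_card_of_injOn (fun y => y + c) ?_ ?_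
          · intro y hy
            simp only [Finset.coe_filter, Set.mem_ofPred_eq] at hy
            simp only [Finset.coe_sdiff, Set.mem_sdiff, Finset.mem_coe]
            exact ⟨box_add R N hc hy.1, hy.2⟩
          · intro x _ y _ hxy
            exact add_right_cancel hxy
        have h7 : (box R (N + 1) \ F).card = (box R (N + 1)).card - F.card := by
          rw [Finset.card_sdiff_of_subset (box_mono R N)]
        have h8 : F.card ≤ (box R (N + 1)).card := Finset.card_le_card (box_mono R N)
        rw [h7] at h6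
        simp only [ha]
        have h9 : ((F.filter fun y => y + c ∉ F).card : ℝ) ≤
            (((box R (N + 1)).card - F.card : ℕ) : ℝ) := by exact_mod_cast h6
        rwa [Nat.cast_sub h8] at h9
      have h10 : (φ c * ((F.filter fun y => y + c ∈ F).card : ℂ)).re =
          (φ c).re * ((F.filter fun y => y + c ∈ F).card : ℝ) := by
        rw [← Complex.ofReal_natCast, Complex.re_mul_ofReal]
      rw [h10, h3, mul_sub]
      have h11 : -((φ c).re) * ((F.filter fun y => y + c ∉ F).card : ℝ) ≤
          ‖φ c‖ * (a (N + 1) - a N) := by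
        refine mul_le_mul ?_ h5 (Nat.cast_nonneg _) (norm_nonneg _)
        exact (neg_le_abs _).trans (Complex.abs_re_le_norm _)
      linarith
    have h12 := h1.trans (Finset.sum_le_sum h2)
    rw [Finset.sum_add_distrib, ← Finset.sum_mul, ← Finset.sum_mul, ← Complex.re_sum] at h12
    have h13 : (∑ c ∈ R, φ c).re = -η := by rw [hη, neg_neg]
    rw [h13] at h12
    linarith
  have hgrow : ∀ N : ℕ, (1 + η / M) ^ N ≤ a (N + 1) := by
    intro N
    induction N with
    | zero =>
      rw [pow_zero]
      simp only [ha]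
      exact_mod_cast box_pos R le_rfl
    | succ N ih =>
      have h1 := hstep (N + 1)
      have h2 : (1 + η / M) * a (N + 1) ≤ a (N + 1 + 1) := by
        have h3 : η / M * a (N + 1) ≤ a (N + 1 + 1) - a (N + 1) := by
          rw [div_mul_eq_mul_div, div_le_iff₀ hM0, mul_comm _ M]
          exact h1
        linarith
      refine le_trans ?_ h2
      rw [pow_succ, mul_comm]
      exact mul_le_mul_of_nonneg_left ih (by positivity)
  have hr : (1 : ℝ) < 1 + η / M := by
    have : 0 < η / M := by positivity
    linarith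
  have hlim := tendsto_pow_const_div_const_pow_of_one_lt R.card hr
  have hev := hlim.eventually (gt_mem_nhds (show (0 : ℝ) < (1 + η / M)⁻¹ by positivity))
  obtain ⟨N, hN, hN1⟩ := (hev.and (eventually_ge_atTop 1)).exists
  obtain ⟨l, rfl⟩ : ∃ l, N = l + 1 := ⟨N - 1, by omega⟩
  have h1 := hgrow l
  have h2 : a (l + 1) ≤ ((l + 1 : ℕ) : ℝ) ^ R.card := by
    simp only [ha]
    exact_mod_cast box_card R (l + 1)
  have h3 : (0 : ℝ) < (1 + η / M) ^ (l + 1) := by positivity
  rw [div_lt_iff₀ h3, pow_succ] at hN
  have h4 : (1 + η / M)⁻¹ * ((1 + η / M) ^ l * (1 + η / M)) = (1 + η / M) ^ l := by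
    field_simp
  rw [h4] at hN
  linarith

end

end Pool.Agent.V8H35.GS
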