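import Pool.Agent.V8H35.GS.Rama
import Pool.Agent.V8H32.Coh.Dec

/-! The orders on the line define a positive definite function with integral values. -/

set_option autoImplicit false

namespace Pool.Agent.V8H35.GS

open Complex Filter Topology MeasureTheory ComplexConjugate
open Pool.Agent.V8H32.SymP (LL LL_nonneg exp_LL cexp_LL summable_pm cN hcN pz norm_pz pz_zero
  pz_add pz_neg lim_one)
open Pool.Agent.W189.TP Pool.Agent.V8H32.Coh Pool.Agent.W540.BE Pool.Agent.H341R2
open Pool.Agent.H235R3.PT (PD)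

theorem LimC.unique {f : Nat.Primes → ℂ} {x y : ℂ} (h : LimC f x) (h' : LimC f y) : x = y :=
  Complex.ext (h.re.unique h'.re) (h.im.unique h'.im)

theorem LimC.congr {f g : Nat.Primes → ℂ} {x : ℂ} (hf : LimC f x) (h : ∀ p, f p = g p) :
    LimC g x := by
  have : f = g := funext h
  rwa [← this]

theorem LimC.add {f g : Nat.Primes → ℂ} {x y : ℂ} (hf : LimC f x) (hg : LimC g y) :
    LimC (fun p => f p + g p) (x + y) :=
  ⟨(hf.re.add hcN hg.re).congr fun p => (Complex.add_re _ _).symm,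
    (hf.im.add hcN hg.im).congr fun p => (Complex.add_im _ _).symm⟩

theorem LimC.const_mul {f : Nat.Primes → ℂ} {x : ℂ} (hf : LimC f x) (c : ℂ) :
    LimC (fun p => c * f p) (c * x) := by
  constructor
  · rw [Complex.mul_re]
    exact ((hf.re.const_mul c.re).sub hcN (hf.im.const_mul c.im)).congr fun p =>
      (Complex.mul_re _ _).symm
  · rw [Complex.mul_im]
    exact ((hf.im.const_mul c.re).add hcN (hf.re.const_mul c.im)).congr fun p =>
      (Complex.mul_im _ _).symm

theorem LimC.zero : LimC (fun _ => 0) 0 := ⟨Lim.zero, Lim.zero⟩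

theorem LimC.sum {ι : Type*} (s : Finset ι) {f : ι → Nat.Primes → ℂ} {x : ι → ℂ}
    (h : ∀ i ∈ s, LimC (f i) (x i)) : LimC (fun p => ∑ i ∈ s, f i p) (∑ i ∈ s, x i) := by
  classical
  induction s using Finset.induction_on with
  | empty => simpa using LimC.zero
  | insert i s hi ih =>
    have h1 := (h i (Finset.mem_insert_self _ _)).add
      (ih fun j hj => h j (Finset.mem_insert_of_mem hj))
    rw [Finset.sum_insert hi]
    exact h1.congr fun p => by rw [Finset.sum_insert hi]

theorem LimC.of_fin {f g : Nat.Primes → ℂ} {x : ℂ} (hf : LimC f x) (S : Finset Nat.Primes)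
    (h : ∀ p, p ∉ S → f p = g p) : LimC g x :=
  ⟨hf.re.of_fin hcN S fun p hp => by rw [h p hp], hf.im.of_fin hcN S fun p hp => by rw [h p hp]⟩

/-- the primes in `S` -/
noncomputable def SP (S : Finset ℕ) : Finset Nat.Primes :=
  (Set.Finite.preimage (f := fun p : Nat.Primes => (p : ℕ)) Subtype.val_injective.injOn
    S.finite_toSet).toFinset

theorem mem_SP {S : Finset ℕ} {p : Nat.Primes} : p ∈ SP S ↔ (p : ℕ) ∈ S := by
  simp [SP]

theorem LimC.conj {f : Nat.Primes → ℂ} {x : ℂ} (hf : LimC f x) :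
    LimC (fun p => (starRingEnd ℂ) (f p)) ((starRingEnd ℂ) x) := by
  constructor
  · rw [Complex.conj_re]
    exact hf.re.congr fun p => (Complex.conj_re _).symm
  · rw [Complex.conj_im]
    have := hf.im.const_mul (-1)
    rw [neg_one_mul] at this
    exact this.congr fun p => by rw [Complex.conj_im, neg_one_mul]

section

variable {n : ℕ} {S : Finset ℕ} {b : ℕ → Torus n ℂˣ} {θ : ℝ}

/-- the parameters are points of the compact torus -/
theorem exists_unitary (h : ∀ p : ℕ, p.Prime → p ∉ S → ‖((b p).1 : ℂ)‖ = 1 ∧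
    ∀ j, ‖((b p).2 j : ℂ)‖ = 1) :
    ∃ u : ℕ → Torus n Circle, ∀ p : ℕ, p.Prime → p ∉ S → toC (u p) = b p := by
  classical
  have h1 : ∀ p : ℕ, ∃ v : Torus n Circle, p.Prime → p ∉ S → toC v = b p := by
    intro p
    by_cases hp : p.Prime ∧ p ∉ S
    · obtain ⟨h2, h3⟩ := h p hp.1 hp.2
      refine ⟨(⟨((b p).1 : ℂ), by
        change ((b p).1 : ℂ) ∈ Metric.sphere (0 : ℂ) 1
        rwa [mem_sphere_zero_iff_norm]⟩, fun j => ⟨((b p).2 j : ℂ), by
        change ((b p).2 j : ℂ) ∈ Metric.sphere (0 : ℂ) 1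
        rw [mem_sphere_zero_iff_norm]
        exact h3 j⟩), fun _ _ => ?_⟩
      refine Prod.ext (Units.ext rfl) (funext fun j => Units.ext rfl)
    · exact ⟨1, fun h1 h2 => absurd ⟨h1, h2⟩ hp⟩
  choose u hu using h1
  exact ⟨u, hu⟩

theorem ev_toC (k : Weight n) (v : Torus n Circle) :
    ((ev k (toC v) : ℂˣ) : ℂ) = ((ev k v : Circle) : ℂ) := by
  have h : ev k (toC v) = Circle.toUnits (ev k v) := by
    unfold ev toC
    rw [map_mul, map_zpow, map_prod]
    simp only [map_zpow]
  rw [h]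
  rfl

theorem onTorus_toC (w : Weyl n) (v : Torus n Circle) : w.onTorus (toC v) = toC (w.onTorus v) := by
  unfold Weyl.onTorus toC
  refine Prod.ext ?_ (funext fun i => ?_)
  · simp only
    rw [map_mul, map_prod]
  · simp only
    split_ifs
    · rw [map_inv]
    · rfl

theorem norm_ev_unitary {u : ℕ → Torus n Circle}
    (hu : ∀ p : ℕ, p.Prime → p ∉ S → toC (u p) = b p) (m : Weight n →₀ ℤ) :
    ∀ p : Nat.Primes, (p : ℕ) ∉ S → ∀ k ∈ m.support, ‖yy b p k‖ ≤ 1 := by
  intro p hp k _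
  unfold yy
  rw [← hu p p.2 hp, ev_toC, Circle.norm_coe]

/-- the size of `log L` on the line is the mean value of the trace -/
theorem size_iff' {u : ℕ → Torus n Circle} (hu : ∀ p : ℕ, p.Prime → p ∉ S → toC (u p) = b p)
    (m : Weight n →₀ ℤ) (τ : ℝ) (x : ℂ) :
    LimC (fun p => tr m (toC (u p)) * pz τ p) x ↔ Tendsto (size S b m τ) (𝓝[>] 0) (𝓝 x) := by
  have h1 := size_iff (S := S) (K := m.support) (c := m) (y := yy b) (norm_ev_unitary hu m) τ x
  have h2 : LimC (ffg S m.support m (yy b) τ) x ↔ LimC (fun p => tr m (toC (u p)) * pz τ p) x := by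
    have h3 : ∀ p, p ∉ SP S → ffg S m.support m (yy b) τ p = tr m (toC (u p)) * pz τ p := by
      intro p hp
      rw [mem_SP] at hp
      unfold ffg
      rw [if_neg hp, hu p p.2 hp]
      rfl
    exact ⟨fun h => h.of_fin (SP S) h3, fun h => h.of_fin (SP S) fun p hp => (h3 p hp).symm⟩
  rw [← h2, h1]
  refine tendsto_congr fun ε => ?_
  unfold size
  rw [logL_eq]

/-- a continuation near a point of the line has the order given by the size -/
theorem continues_order {u : ℕ → Torus n Circle}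
    (hu : ∀ p : ℕ, p.Prime → p ∉ S → toC (u p) = b p)
    (m : Weight n →₀ ℤ) (τ : ℝ) {Λ : ℂ → ℂ} (hΛ : Continues (LFun S b m) Λ (1 + τ * I)) :
    ∃ a : ℤ, meromorphicOrderAt Λ (1 + τ * I) = ((-a : ℤ) : WithTop ℤ) ∧
      Tendsto (size S b m τ) (𝓝[>] 0) (𝓝 (a : ℂ)) := by
  have hy : ∀ p : Nat.Primes, (p : ℕ) ∉ S → ∀ k ∈ m.support, ‖yy b p k‖ ≤ ((p : ℕ) : ℝ) ^ (0 : ℝ) := by
    intro p hp k hk
    rw [Real.rpow_zero]
    exact norm_ev_unitary hu m p hp k hk
  have hdiff : DifferentiableOn ℂ (logL S b m) {s | 1 < s.re} := by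
    have h1 := diff_cog (c := m) hy
    rw [zero_add] at h1
    exact h1.congr fun s _ => logL_eq m s
  refine mero_log (h := fun ε => logL S b m (1 + τ * I + ε)) ?_ hΛ.1 ?_
  · refine hdiff.continuousOn.comp (by fun_prop) fun ε hε => ?_
    have : (0 : ℝ) < ε := hε
    show 1 < (1 + τ * I + ε : ℂ).re
    simpa using this
  · have hpath : Tendsto (fun ε : ℝ => (1 + τ * I + ε : ℂ)) (𝓝[>] 0) (𝓝 (1 + τ * I)) := by
      have : ContinuousAt (fun ε : ℝ => (1 + τ * I + ε : ℂ)) 0 := by fun_prop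
      have h2 := this.tendsto
      simp only [ofReal_zero, add_zero] at h2
      exact h2.mono_left nhdsWithin_le_nhds
    filter_upwards [hpath.eventually hΛ.2, self_mem_nhdsWithin] with ε h1 h2
    have h2' : (0 : ℝ) < ε := h2
    have h3 : 1 < (1 + τ * I + ε : ℂ).re := by simpa using h2'
    rw [h1 h3, logL_eq]
    exact (exp_cog (c := m) hy (by rw [zero_add]; exact h3)).tprod_eq

/-- the functions of the primes which belong to the characters of the group `Weight n × T` -/
noncomputable def chr (u : ℕ → Torus n Circle) {T : AddSubgroup ℝ} (w : Weyl n) (x : Weight n × T)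
    (p : Nat.Primes) : ℂ := ((ev x.1 (w.onTorus (u p)) : Circle) : ℂ) * pz (x.2 : ℝ) p

theorem chr_sub (u : ℕ → Torus n Circle) {T : AddSubgroup ℝ} (w : Weyl n) (x y : Weight n × T)
    (p : Nat.Primes) : chr u w (x - y) p = chr u w x p * conj (chr u w y p) := by
  unfold chr
  rw [Prod.fst_sub, Prod.snd_sub, ev_sub, AddSubgroup.coe_sub, sub_eq_add_neg (x.2 : ℝ), pz_add,
    pz_neg, Circle.coe_mul, Circle.coe_inv_eq_conj, map_mul]
  ring

theorem chr_zero (u : ℕ → Torus n Circle) {T : AddSubgroup ℝ} (w : Weyl n) (p : Nat.Primes) :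
    chr u w (0 : Weight n × T) p = 1 := by
  unfold chr
  rw [Prod.fst_zero, Prod.snd_zero, ev_zero, AddSubgroup.coe_zero, pz_zero, Circle.coe_one, mul_one]

theorem chr_neg (u : ℕ → Torus n Circle) {T : AddSubgroup ℝ} (w : Weyl n) (x : Weight n × T)
    (p : Nat.Primes) : chr u w (-x) p = conj (chr u w x p) := by
  rw [← zero_sub, chr_sub, chr_zero, one_mul]

theorem tr_orb_chr (u : ℕ → Torus n Circle) {T : AddSubgroup ℝ} (x : Weight n × T)
    (p : Nat.Primes) : tr (orb x.1) (toC (u p)) * pz (x.2 : ℝ) p = ∑ w : Weyl n, chr u w x p := by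
  rw [tr_orb, Finset.sum_mul]
  refine Finset.sum_congr rfl fun w _ => ?_
  rw [onTorus_toC, ev_toC]
  rfl

theorem pd_of_lim {u : ℕ → Torus n Circle} {T : AddSubgroup ℝ} {F : Weight n × T → ℝ}
    (hF : ∀ x, LimC (fun p => ∑ w : Weyl n, chr u w x p) (F x : ℂ)) : PD F := by
  constructor
  · intro x
    have h1 := (hF x).conj
    rw [Complex.conj_ofReal] at h1
    have h2 : LimC (fun p => ∑ w : Weyl n, chr u w (-x) p) (F x : ℂ) := by
      refine h1.congr fun p => ?_
      rw [map_sum]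
      exact Finset.sum_congr rfl fun w _ => (chr_neg u w x p).symm
    exact_mod_cast (hF (-x)).unique h2
  · intro s v
    have h1 : Lim cN (fun p => ∑ x ∈ s, ∑ y ∈ s, (v x * v y) *
        (∑ w : Weyl n, chr u w (x - y) p).re) (∑ x ∈ s, ∑ y ∈ s, v x * v y * F (x - y)) := by
      refine Lim.sum hcN s fun x _ => Lim.sum hcN s fun y _ => ?_
      exact (hF (x - y)).re.const_mul _
    refine h1.nonneg fun p => ?_
    have h2 : ∑ x ∈ s, ∑ y ∈ s, (v x * v y) * (∑ w : Weyl n, chr u w (x - y) p).re =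
        ∑ w : Weyl n, ‖∑ x ∈ s, (v x : ℂ) * chr u w x p‖ ^ 2 := by
      have h3 : ∀ w : Weyl n, ‖∑ x ∈ s, (v x : ℂ) * chr u w x p‖ ^ 2 =
          (∑ x ∈ s, ∑ y ∈ s, ((v x * v y : ℝ) : ℂ) * chr u w (x - y) p).re := by
        intro w
        rw [← Complex.normSq_eq_norm_sq, ← Complex.ofReal_re (Complex.normSq _),
          ← Complex.mul_conj, map_sum, Finset.sum_mul_sum]
        congr 1
        refine Finset.sum_congr rfl fun x _ => Finset.sum_congr rfl fun y _ => ?_
        rw [chr_sub, map_mul, Complex.conj_ofReal]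
        push_cast
        ring
      have h4 : ∑ x ∈ s, ∑ y ∈ s, (v x * v y) * (∑ w : Weyl n, chr u w (x - y) p).re =
          (∑ x ∈ s, ∑ y ∈ s, ((v x * v y : ℝ) : ℂ) * ∑ w : Weyl n, chr u w (x - y) p).re := by
        rw [Complex.re_sum]
        refine Finset.sum_congr rfl fun x _ => ?_
        rw [Complex.re_sum]
        exact Finset.sum_congr rfl fun y _ => (Complex.re_ofReal_mul _ _).symm
      have h5 : (∑ x ∈ s, ∑ y ∈ s, ((v x * v y : ℝ) : ℂ) * ∑ w : Weyl n, chr u w (x - y) p) =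
          ∑ w : Weyl n, ∑ x ∈ s, ∑ y ∈ s, ((v x * v y : ℝ) : ℂ) * chr u w (x - y) p := by
        rw [Finset.sum_comm (s := Finset.univ) (t := s)]
        refine Finset.sum_congr rfl fun x _ => ?_
        rw [Finset.sum_comm (s := Finset.univ) (t := s)]
        refine Finset.sum_congr rfl fun y _ => ?_
        rw [Finset.mul_sum]
      rw [h4, h5, Complex.re_sum]
      exact Finset.sum_congr rfl fun w _ => (h3 w).symm
    rw [h2]
    positivity

end

end Pool.Agent.V8H35.GS
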