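import Pool.Agent.V8H35.GS.Haar
import Pool.Agent.V8H35.GS.Foln
import Pool.Agent.V8H35.GS.Ord

/-! Simple positive definite functions on the weights are Fourier transforms of trigonometric
polynomials times Haar measures. -/

set_option autoImplicit false

namespace Pool.Agent.V8H35.GS

open Complex Filter Topology MeasureTheory ComplexConjugate
open Pool.Agent.V8H32.Coh
open Pool.Agent.H235R3.PT (PD)

section

variable {G : Type*} [AddCommGroup G]

/-- the form with complex coefficients -/
theorem pd_complex {ψ : G → ℝ} (h : PD ψ) (s : Finset G) (q : G → ℂ) :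
    0 ≤ (∑ x ∈ s, ∑ y ∈ s, q x * conj (q y) * (ψ (x - y) : ℂ)).re ∧
    (∑ x ∈ s, ∑ y ∈ s, q x * conj (q y) * (ψ (x - y) : ℂ)).im = 0 := by
  have h1 : ∀ x y, (q x * conj (q y) * (ψ (x - y) : ℂ)).re =
      (q x).re * (q y).re * ψ (x - y) + (q x).im * (q y).im * ψ (x - y) := by
    intro x y
    rw [Complex.re_mul_ofReal, Complex.mul_re, Complex.conj_re, Complex.conj_im]
    ring
  have h2 : ∀ x y, (q x * conj (q y) * (ψ (x - y) : ℂ)).im =
      (q x).im * (q y).re * ψ (x - y) - (q x).re * (q y).im * ψ (x - y) := by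
    intro x y
    rw [Complex.im_mul_ofReal, Complex.mul_im, Complex.conj_re, Complex.conj_im]
    ring
  constructor
  · rw [Complex.re_sum]
    simp only [Complex.re_sum, h1, Finset.sum_add_distrib]
    exact add_nonneg (h.nonneg s fun x => (q x).re) (h.nonneg s fun x => (q x).im)
  · rw [Complex.im_sum]
    simp only [Complex.im_sum, h2, Finset.sum_sub_distrib]
    rw [sub_eq_zero, Finset.sum_comm]
    refine Finset.sum_congr rfl fun x _ => Finset.sum_congr rfl fun y _ => ?_
    rw [← h.symm (x - y), neg_sub]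
    ring

end

section

variable {n : ℕ}

/-- the subgroup of the periods -/
def per {ψ : Weight n → ℝ} (h : PD ψ) : AddSubgroup (Weight n) where
  carrier := {k | ψ k = ψ 0}
  zero_mem' := rfl
  add_mem' := fun {a b} ha hb => by
    change ψ (a + b) = ψ 0
    rw [periodic h hb]
    exact ha
  neg_mem' := fun {a} ha => by
    change ψ (-a) = ψ 0
    rw [h.symm]
    exact ha

theorem mem_per {ψ : Weight n → ℝ} (h : PD ψ) {k : Weight n} : k ∈ per h ↔ ψ k = ψ 0 := Iff.rfl

theorem simple_measure {ψ : Weight n → ℝ} (h : Simple ψ) :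
    ∃ (K : Subgroup (Torus n Circle)) (μ : Measure (Torus n Circle)) (f : Weight n →₀ ℤ),
      (∀ x, x ∈ K ↔ ∀ k, ψ k = ψ 0 → ev k x = 1) ∧ IsHaar K μ ∧
      (∀ x ∈ K, ∃ a : ℝ, 0 ≤ a ∧ tr f (toC x) = a) ∧
      ∀ k, ∫ x, ((ev k x : Circle) : ℂ) * tr f (toC x) ∂μ = (ψ k : ℂ) := by
  classical
  set H := per h.pd with hH
  obtain ⟨μ, hμ⟩ := exists_haar (ann H) (closed_ann H)
  obtain ⟨F, hF⟩ := h.fin
  -- the representatives
  let out : (Weight n ⧸ H) → Weight n := Quotient.out
  have hout : ∀ c : Weight n ⧸ H, (QuotientAddGroup.mk (out c) : Weight n ⧸ H) = c := fun c =>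
    Quotient.out_eq' c
  have hper : ∀ k l : Weight n, (QuotientAddGroup.mk k : Weight n ⧸ H) = QuotientAddGroup.mk l →
      k - l ∈ H := by
    intro k l hkl
    rw [← QuotientAddGroup.eq_zero_iff, QuotientAddGroup.mk_sub, hkl, sub_self]
  have hψ : ∀ k l : Weight n, k - l ∈ H → ψ k = ψ l := by
    intro k l hkl
    have := periodic h.pd ((mem_per h.pd).1 hkl) l
    rwa [add_sub_cancel] at this
  have hev : ∀ (k l : Weight n) (x : Torus n Circle), x ∈ ann H → k - l ∈ H → ev k x = ev l x := by
    intro k l x hx hkl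
    have := (mem_ann.1 hx) _ hkl
    rw [ev_sub] at this
    exact mul_inv_eq_one.1 this
  choose N hN using h.int
  set R : Finset (Weight n ⧸ H) := F.image QuotientAddGroup.mk with hR
  have hRψ : ∀ c : Weight n ⧸ H, ψ (out c) ≠ 0 → c ∈ R := by
    intro c hc
    obtain ⟨y, hy, hy2⟩ := hF _ hc
    rw [hR, Finset.mem_image]
    refine ⟨y, hy, ?_⟩
    have h1 : (QuotientAddGroup.mk (out c - y) : Weight n ⧸ H) = 0 :=
      (QuotientAddGroup.eq_zero_iff _).2 ((mem_per h.pd).2 hy2)
    rw [QuotientAddGroup.mk_sub, sub_eq_zero, hout] at h1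
    exact h1.symm
  set f : Weight n →₀ ℤ := ∑ c ∈ R, Finsupp.single (-out c) (N (out c)) with hf
  have htr : ∀ x : Torus n Circle, tr f (toC x) =
      ∑ c ∈ R, (ψ (out c) : ℂ) * ((ev (-out c) x : Circle) : ℂ) := by
    intro x
    rw [hf, tr_sum]
    refine Finset.sum_congr rfl fun c _ => ?_
    rw [tr_single, ev_toC, hN]
    norm_cast
  refine ⟨ann H, μ, f, fun x => Iff.rfl, hμ, fun x hx => ?_, fun k => ?_⟩
  · -- positivity
    set φ : (Weight n ⧸ H) → ℂ := fun c => (ψ (out c) : ℂ) * ((ev (-out c) x : Circle) : ℂ) with hφ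
    have hφR : ∀ c, φ c ≠ 0 → c ∈ R := by
      intro c hc
      refine hRψ c fun h0 => hc ?_
      simp only [hφ]
      rw [h0, Complex.ofReal_zero, zero_mul]
    have hsum : ∀ E : Finset (Weight n ⧸ H), ∃ a : ℝ, 0 ≤ a ∧
        ∑ c ∈ E, ∑ d ∈ E, φ (c - d) = a := by
      intro E
      have h1 : ∑ c ∈ E, ∑ d ∈ E, φ (c - d) = ∑ k ∈ E.image out, ∑ l ∈ E.image out,
          ((ev (-k) x : Circle) : ℂ) * conj (((ev (-l) x : Circle) : ℂ)) * (ψ (k - l) : ℂ) := by
        have hinj : Set.InjOn out E := fun c _ d _ hcd => by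
          rw [← hout c, ← hout d, hcd]
        rw [Finset.sum_image hinj]
        refine Finset.sum_congr rfl fun c _ => ?_
        rw [Finset.sum_image hinj]
        refine Finset.sum_congr rfl fun d _ => ?_
        have h2 : out (c - d) - (out c - out d) ∈ H := by
          apply hper
          rw [hout, QuotientAddGroup.mk_sub, hout, hout]
        have h3 : -out (c - d) - (-(out c - out d)) ∈ H := by
          have := H.neg_mem h2
          rwa [neg_sub, show out c - out d - out (c - d) =
            -out (c - d) - (-(out c - out d)) by abel] at this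
        simp only [hφ]
        rw [hψ _ _ h2, hev _ _ x hx h3]
        have h4 : ((ev (-(out c - out d)) x : Circle) : ℂ) =
            ((ev (-out c) x : Circle) : ℂ) * conj ((ev (-out d) x : Circle) : ℂ) := by
          rw [show -(out c - out d) = -out c - -out d by abel, ev_sub, Circle.coe_mul,
            Circle.coe_inv_eq_conj]
        rw [h4]
        ring
      obtain ⟨h5, h6⟩ := pd_complex h.pd (E.image out) fun k => ((ev (-k) x : Circle) : ℂ)
      rw [h1]
      refine ⟨_, h5, ?_⟩
      exact Complex.ext (by rw [Complex.ofReal_re]) (by rw [h6, Complex.ofReal_im])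
    have k1 := folner φ R hφR fun E => by
      obtain ⟨a, ha, he⟩ := hsum E
      rw [he, Complex.ofReal_re]
      exact ha
    have k2 := folner (fun c => I * φ c) R (fun c hc => hφR c (right_ne_zero_of_mul hc)) fun E => by
      obtain ⟨a, ha, he⟩ := hsum E
      simp only [← Finset.mul_sum]
      rw [he]
      simp
    have k3 := folner (fun c => -I * φ c) R (fun c hc => hφR c (right_ne_zero_of_mul hc)) fun E => by
      obtain ⟨a, ha, he⟩ := hsum E
      simp only [← Finset.mul_sum]
      rw [he]
      simp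
    rw [← Finset.mul_sum] at k2 k3
    have k2' : (∑ c ∈ R, φ c).im ≤ 0 := by
      have : (I * ∑ c ∈ R, φ c).re = -(∑ c ∈ R, φ c).im := by simp
      linarith
    have k3' : 0 ≤ (∑ c ∈ R, φ c).im := by
      have : (-I * ∑ c ∈ R, φ c).re = (∑ c ∈ R, φ c).im := by simp
      linarith
    refine ⟨_, k1, ?_⟩
    rw [htr]
    exact Complex.ext (by rw [Complex.ofReal_re]) (by
      rw [Complex.ofReal_im]
      exact le_antisymm k2' k3')
  · -- the Fourier coefficients
    have h1 : ∀ x, ((ev k x : Circle) : ℂ) * tr f (toC x) =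
        ∑ c ∈ R, (ψ (out c) : ℂ) * ((ev (k - out c) x : Circle) : ℂ) := by
      intro x
      rw [htr, Finset.mul_sum]
      refine Finset.sum_congr rfl fun c _ => ?_
      rw [sub_eq_add_neg, ev_add, Circle.coe_mul]
      ring
    have := hμ.prob
    simp_rw [h1]
    rw [integral_finsetSum]
    · have h2 : ∀ c ∈ R, ∫ x, (ψ (out c) : ℂ) * ((ev (k - out c) x : Circle) : ℂ) ∂μ =
          if c = QuotientAddGroup.mk k then (ψ (out c) : ℂ) else 0 := by
        intro c _
        rw [integral_const_mul]
        split_ifs with hc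
        · rw [integral_ev_one hμ, mul_one]
          intro x hx
          refine hx _ (hper _ _ ?_)
          rw [hout, hc]
        · have h3 : k - out c ∉ H := by
            intro h4
            apply hc
            have h5 := (QuotientAddGroup.eq_zero_iff (k - out c)).2 h4
            rw [QuotientAddGroup.mk_sub, hout, sub_eq_zero] at h5
            exact h5.symm
          obtain ⟨x, hx, hx2⟩ := exists_ev_ne h3
          rw [integral_ev_zero hμ hx hx2, mul_zero]
      rw [Finset.sum_congr rfl h2, Finset.sum_ite_eq']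
      have h4 : ψ (out (QuotientAddGroup.mk k)) = ψ k := hψ _ _ (hper _ _ (hout _))
      split_ifs with h5
      · rw [h4]
      · have h6 : ψ k = 0 := by
          by_contra h7
          exact h5 (hRψ _ (by rw [h4]; exact h7))
        rw [h6, Complex.ofReal_zero]
    · intro c _
      refine Integrable.const_mul ?_ _
      refine Integrable.of_bound (continuous_ev' _).aestronglyMeasurable 1
        (Eventually.of_forall fun x => ?_)
      rw [Circle.norm_coe]

end

end Pool.Agent.V8H35.GS
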