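import Pool.Agent.V8H35.GS.Defs

/-! The torus, the weights, the Weyl group. -/

set_option autoImplicit false

namespace Pool.Agent.V8H35.GS

open Complex Filter Topology MeasureTheory ComplexConjugate

section

variable {n : ℕ} {M : Type} [CommGroup M]

theorem ev_add (k l : Weight n) (b : Torus n M) : ev (k + l) b = ev k b * ev l b := by
  unfold ev
  simp only [Prod.fst_add, Prod.snd_add, Pi.add_apply, zpow_add, Finset.prod_mul_distrib]
  exact mul_mul_mul_comm _ _ _ _

theorem ev_zero (b : Torus n M) : ev (0 : Weight n) b = 1 := by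
  simp [ev]

theorem ev_neg (k : Weight n) (b : Torus n M) : ev (-k) b = (ev k b)⁻¹ := by
  apply eq_inv_of_mul_eq_one_left
  rw [← ev_add, neg_add_cancel, ev_zero]

theorem ev_sub (k l : Weight n) (b : Torus n M) : ev (k - l) b = ev k b * (ev l b)⁻¹ := by
  rw [sub_eq_add_neg, ev_add, ev_neg]

theorem ev_mul (k : Weight n) (b c : Torus n M) : ev k (b * c) = ev k b * ev k c := by
  unfold ev
  simp only [Prod.fst_mul, Prod.snd_mul, Pi.mul_apply, mul_zpow, Finset.prod_mul_distrib]
  exact mul_mul_mul_comm _ _ _ _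

theorem ev_one (k : Weight n) : ev k (1 : Torus n M) = 1 := by
  simp [ev]

/-- the weights as homomorphisms -/
def evHom (k : Weight n) : Torus n M →* M where
  toFun := ev k
  map_one' := ev_one k
  map_mul' := ev_mul k

theorem ev_pow (k : Weight n) (b : Torus n M) (m : ℕ) : ev k (b ^ m) = ev k b ^ m :=
  map_pow (evHom k) b m

theorem ev_inv (k : Weight n) (b : Torus n M) : ev k b⁻¹ = (ev k b)⁻¹ :=
  map_inv (evHom k) b

theorem ev_sum {ι : Type*} (s : Finset ι) (k : ι → Weight n) (b : Torus n M) :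
    ev (∑ i ∈ s, k i) b = ∏ i ∈ s, ev (k i) b := by
  classical
  induction s using Finset.induction_on with
  | empty => simp [ev_zero]
  | insert i s hi ih => rw [Finset.sum_insert hi, Finset.prod_insert hi, ev_add, ih]

theorem ev_onTorus (w : Weyl n) (k : Weight n) (b : Torus n M) :
    ev k (w.onTorus b) = ev (w.onWeight k) b := by
  unfold ev Weyl.onTorus Weyl.onWeight
  simp only
  rw [mul_zpow, mul_assoc]
  congr 1
  rw [← Equiv.prod_comp w.1 fun i => (if w.1.symm i ∈ w.2 then (b.2 (w.1.symm i))⁻¹ else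
    b.2 (w.1.symm i)) ^ k.2 i]
  simp only [Equiv.symm_apply_apply]
  rw [← Finset.prod_zpow]
  have h1 : ∏ j ∈ w.2, b.2 j ^ k.1 = ∏ j, if j ∈ w.2 then b.2 j ^ k.1 else 1 := by
    rw [Finset.prod_ite_mem, Finset.univ_inter]
  rw [h1, ← Finset.prod_mul_distrib]
  refine Finset.prod_congr rfl fun j _ => ?_
  split_ifs with h
  · rw [inv_zpow, zpow_sub]
  · rw [one_mul]

theorem onWeight_add (w : Weyl n) (k l : Weight n) :
    w.onWeight (k + l) = w.onWeight k + w.onWeight l := by
  unfold Weyl.onWeight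
  ext j
  · rfl
  · simp only [Prod.fst_add, Prod.snd_add, Pi.add_apply]
    split_ifs
    · ring
    · rfl

theorem onWeight_injective (w : Weyl n) : Function.Injective (w.onWeight (n := n)) := by
  intro k l h
  have h0 : k.1 = l.1 := (congrArg Prod.fst h : (w.onWeight k).1 = (w.onWeight l).1)
  ext i
  · exact h0
  · have h1 := congrFun (congrArg Prod.snd h) (w.1.symm i)
    simp only [Weyl.onWeight, Equiv.apply_symm_apply] at h1
    split_ifs at h1
    · rw [h0] at h1
      linarith
    · exact h1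

theorem onWeight_surjective (w : Weyl n) : Function.Surjective (w.onWeight (n := n)) := by
  intro k
  refine ⟨(k.1, fun i => if w.1.symm i ∈ w.2 then k.1 - k.2 (w.1.symm i) else k.2 (w.1.symm i)), ?_⟩
  ext j
  · rfl
  · simp only [Weyl.onWeight, Equiv.symm_apply_apply]
    split_ifs
    · ring
    · rfl

/-- the product in the Weyl group -/
def wmul (w v : Weyl n) : Weyl n :=
  (v.1 * w.1, symmDiff w.2 (v.2.map w.1.symm.toEmbedding))

theorem wmul_onWeight (w v : Weyl n) (k : Weight n) :
    w.onWeight (v.onWeight k) = (wmul w v).onWeight k := by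
  ext j
  · rfl
  · simp only [Weyl.onWeight, wmul, Finset.mem_symmDiff, Finset.mem_map_equiv, Equiv.symm_symm,
      Equiv.Perm.mul_apply]
    by_cases h1 : j ∈ w.2 <;> by_cases h2 : w.1 j ∈ v.2 <;> simp [h1, h2]

theorem wmul_injective (w : Weyl n) : Function.Injective (wmul w) := by
  intro v u h
  have h1 : v.1 * w.1 = u.1 * w.1 := congrArg Prod.fst h
  have h2 : symmDiff w.2 (v.2.map w.1.symm.toEmbedding) =
    symmDiff w.2 (u.2.map w.1.symm.toEmbedding) := congrArg Prod.snd h
  have h3 := symmDiff_right_injective w.2 h2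
  have h4 : v.2 = u.2 := Finset.map_injective _ h3
  exact Prod.ext (mul_right_cancel h1) h4

/-- the sum over the orbit of a weight -/
noncomputable def orb (k : Weight n) : Weight n →₀ ℤ :=
  ∑ w : Weyl n, Finsupp.single (w.onWeight k) 1

theorem orb_isRep (k : Weight n) : IsRep (orb k) := by
  intro w l
  have h1 : orb k = ∑ v : Weyl n, Finsupp.single (w.onWeight (v.onWeight k)) 1 := by
    unfold orb
    rw [← (Function.Injective.bijective_of_finite (wmul_injective w)).sum_comp
      (fun v => Finsupp.single (v.onWeight k) (1 : ℤ))]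
    exact Finset.sum_congr rfl fun v _ => by rw [wmul_onWeight]
  conv_lhs => rw [h1]
  unfold orb
  rw [Finsupp.finsetSum_apply, Finsupp.finsetSum_apply]
  refine Finset.sum_congr rfl fun v _ => ?_
  rw [Finsupp.single_apply, Finsupp.single_apply]
  simp only [(onWeight_injective w).eq_iff]

end

section

variable {n : ℕ}

theorem tr_add (m m' : Weight n →₀ ℤ) (b : Torus n ℂˣ) : tr (m + m') b = tr m b + tr m' b := by
  unfold tr
  exact Finsupp.sum_add_index' (fun k => by simp) fun k c d => by push_cast; ring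

theorem tr_zero (b : Torus n ℂˣ) : tr (0 : Weight n →₀ ℤ) b = 0 := by
  simp [tr]

theorem tr_single (k : Weight n) (c : ℤ) (b : Torus n ℂˣ) :
    tr (Finsupp.single k c) b = (c : ℂ) * (ev k b : ℂˣ) := by
  unfold tr
  rw [Finsupp.sum_single_index (by simp)]

theorem tr_sum {ι : Type*} (s : Finset ι) (m : ι → Weight n →₀ ℤ) (b : Torus n ℂˣ) :
    tr (∑ i ∈ s, m i) b = ∑ i ∈ s, tr (m i) b := by
  classical
  induction s using Finset.induction_on with
  | empty => simp [tr_zero]
  | insert i s hi ih => rw [Finset.sum_insert hi, Finset.sum_insert hi, tr_add, ih]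

theorem tr_orb (k : Weight n) (b : Torus n ℂˣ) :
    tr (orb k) b = ∑ w : Weyl n, ((ev k (w.onTorus b) : ℂˣ) : ℂ) := by
  unfold orb
  rw [tr_sum]
  refine Finset.sum_congr rfl fun w _ => ?_
  rw [tr_single, ev_onTorus]
  simp

/-- invariance of the trace -/
theorem tr_onTorus {m : Weight n →₀ ℤ} (hm : IsRep m) (w : Weyl n) (b : Torus n ℂˣ) :
    tr m (w.onTorus b) = tr m b := by
  classical
  unfold tr Finsupp.sum
  have h1 : m.support = m.support.map ⟨w.onWeight, onWeight_injective w⟩ := by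
    ext k
    rw [Finset.mem_map]
    constructor
    · intro hk
      obtain ⟨l, hl⟩ := onWeight_surjective w k
      refine ⟨l, ?_, hl⟩
      rw [Finsupp.mem_support_iff] at hk ⊢
      rwa [← hm w l, hl]
    · rintro ⟨l, hl, rfl⟩
      rw [Finsupp.mem_support_iff] at hl ⊢
      change m (w.onWeight l) ≠ 0
      rwa [hm w l]
  conv_rhs => rw [h1]
  rw [Finset.sum_map]
  refine Finset.sum_congr rfl fun k _ => ?_
  change (m k : ℂ) * ((ev k (w.onTorus b) : ℂˣ) : ℂ) =
    (m (w.onWeight k) : ℂ) * ((ev (w.onWeight k) b : ℂˣ) : ℂ)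
  rw [hm w k, ev_onTorus]

theorem card_tr {m : Weight n →₀ ℤ} (hm : IsRep m) (b : Torus n ℂˣ) :
    (Fintype.card (Weyl n) : ℂ) * tr m b = ∑ k ∈ m.support, (m k : ℂ) * tr (orb k) b := by
  have h1 : ∑ w : Weyl n, tr m (w.onTorus b) = (Fintype.card (Weyl n) : ℂ) * tr m b := by
    rw [Finset.sum_congr rfl fun w _ => tr_onTorus hm w b, Finset.sum_const, Finset.card_univ,
      nsmul_eq_mul]
  rw [← h1]
  unfold tr Finsupp.sum
  rw [Finset.sum_comm]
  refine Finset.sum_congr rfl fun k _ => ?_
  rw [← Finset.mul_sum]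
  congr 1
  exact (tr_orb k b).symm

theorem card_weyl (n : ℕ) : Fintype.card (Weyl n) = 2 ^ n * n.factorial := by
  rw [Fintype.card_prod, Fintype.card_perm, Fintype.card_finset, Fintype.card_fin, mul_comm]

/-- the trace of the spin representation -/
noncomputable def spin (b : Torus n ℂˣ) : ℂ := ∑ J : Finset (Fin n), ((ev (spinWeight J) b : ℂˣ) : ℂ)

theorem tr_tensor (k : ℕ) (b : Torus n ℂˣ) : tr (tensor n k) b = (spin b * spin b⁻¹) ^ k := by
  unfold tensor
  rw [tr_sum]
  have h1 : spin b * spin b⁻¹ = ∑ J : Finset (Fin n) × Finset (Fin n),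
      ((ev (spinWeight J.1 - spinWeight J.2) b : ℂˣ) : ℂ) := by
    unfold spin
    rw [Finset.sum_mul_sum, ← Finset.univ_product_univ, Finset.sum_product]
    refine Finset.sum_congr rfl fun J _ => Finset.sum_congr rfl fun J' _ => ?_
    rw [ev_sub, ev_inv]
    simp
  rw [h1, ← Fin.prod_const k, Finset.prod_univ_sum]
  rw [Fintype.piFinset_univ]
  refine Finset.sum_congr rfl fun J _ => ?_
  rw [tr_single, ev_sum]
  simp

/-- the action of the Weyl group on the weights of the spin representation -/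
theorem onWeight_spin (w : Weyl n) (J : Finset (Fin n)) :
    w.onWeight (spinWeight J) = spinWeight (symmDiff w.2 (J.map w.1.symm.toEmbedding)) := by
  ext j
  · rfl
  · simp only [Weyl.onWeight, spinWeight, Finset.mem_symmDiff, Finset.mem_map_equiv, Equiv.symm_symm]
    by_cases h1 : j ∈ w.2 <;> by_cases h2 : w.1 j ∈ J <;> simp [h1, h2]

theorem spin_conj {b : Torus n ℂˣ} {w : Weyl n}
    (h : ∀ k : Weight n, conj ((ev k b : ℂˣ) : ℂ) = (((ev (w.onWeight k) b)⁻¹ : ℂˣ) : ℂ)) :
    spin b⁻¹ = conj (spin b) := by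
  unfold spin
  rw [map_sum]
  have hinj : Function.Injective fun J : Finset (Fin n) =>
      symmDiff w.2 (J.map w.1.symm.toEmbedding) := fun J J' hJ =>
    Finset.map_injective _ (symmDiff_right_injective w.2 hJ)
  rw [← (Function.Injective.bijective_of_finite hinj).sum_comp
    (fun J => ((ev (spinWeight J) b⁻¹ : ℂˣ) : ℂ))]
  refine Finset.sum_congr rfl fun J _ => ?_
  rw [h, onWeight_spin, ev_inv]

theorem unitary_pow {b : Torus n ℂˣ} {w : Weyl n}
    (h : ∀ k : Weight n, conj ((ev k b : ℂˣ) : ℂ) = (((ev (w.onWeight k) b)⁻¹ : ℂˣ) : ℂ)) (l : ℕ)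
    (k : Weight n) :
    conj ((ev k (b ^ l) : ℂˣ) : ℂ) = (((ev (w.onWeight k) (b ^ l))⁻¹ : ℂˣ) : ℂ) := by
  rw [ev_pow, ev_pow, Units.val_pow_eq_pow_val, map_pow, h, ← inv_pow, Units.val_pow_eq_pow_val]

end

end Pool.Agent.V8H35.GS
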