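import Pool.Agent.V8H32.Coh.Dec

/-! Positive definite functions on `X × T` which vanish on `{0} × (T ∖ {0})`. -/

set_option autoImplicit false

namespace Pool.Agent.V8H35.GS

open Filter Topology
open Pool.Agent.V8H32.Coh
open Pool.Agent.H235R3.PT (PD)
open scoped RealInnerProductSpace

section

variable {X T : Type} [AddCommGroup X] [AddCommGroup T]

/-- Bessel's inequality -/
theorem bessel {F : X × T → ℝ} (h : PD F) {W : ℝ} (hW : 0 < W) (h0 : F 0 = W)
    (hτ : ∀ τ : T, τ ≠ 0 → F (0, τ) = 0) (k : X) (E : Finset T) :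
    ∑ τ ∈ E, F (k, τ) ^ 2 ≤ W ^ 2 := by
  classical
  have : Fact (PD F) := ⟨h⟩
  set a : HS F := (rep F).U (k, 0) (vec F) with ha
  set c : T → HS F := fun τ => (rep F).U (0, -τ) (vec F) with hc
  have haa : ⟪a, a⟫ = W := by
    rw [ha, inner_rep, sub_self, h0]
  have hac : ∀ τ, ⟪a, c τ⟫ = F (k, τ) := by
    intro τ
    rw [ha, hc, inner_rep, Prod.mk_sub_mk, sub_zero, sub_neg_eq_add, zero_add]
  have hcc : ∀ τ τ', ⟪c τ, c τ'⟫ = if τ = τ' then W else 0 := by
    intro τ τ'
    simp only [hc]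
    rw [inner_rep, Prod.mk_sub_mk, sub_self]
    split_ifs with hh
    · rw [hh, sub_self]
      exact h0
    · refine hτ _ fun h1 => hh ?_
      have : τ' - τ = 0 := by rw [← h1]; abel
      exact (sub_eq_zero.1 this).symm
  have key : ‖W • a - ∑ τ ∈ E, F (k, τ) • c τ‖ ^ 2 = W * (W ^ 2 - ∑ τ ∈ E, F (k, τ) ^ 2) := by
    rw [norm_sub_sq_real, ← real_inner_self_eq_norm_sq, ← real_inner_self_eq_norm_sq,
      inner_smul_left, inner_smul_right, haa, inner_smul_left, inner_sum, sum_inner]
    have e1 : ∑ τ ∈ E, ⟪a, F (k, τ) • c τ⟫ = ∑ τ ∈ E, F (k, τ) ^ 2 := by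
      refine Finset.sum_congr rfl fun τ _ => ?_
      rw [inner_smul_right, hac, sq]
    have e2 : ∑ τ ∈ E, ⟪F (k, τ) • c τ, ∑ τ' ∈ E, F (k, τ') • c τ'⟫ =
        W * ∑ τ ∈ E, F (k, τ) ^ 2 := by
      rw [Finset.mul_sum]
      refine Finset.sum_congr rfl fun τ hτE => ?_
      rw [inner_sum, Finset.sum_eq_single τ]
      · rw [inner_smul_left, inner_smul_right, hcc, if_pos rfl]
        simp only [conj_trivial]
        ring
      · intro τ' _ hne
        rw [inner_smul_left, inner_smul_right, hcc, if_neg (Ne.symm hne), mul_zero, mul_zero]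
      · intro h1
        exact absurd hτE h1
    rw [e1, e2]
    simp only [conj_trivial]
    ring
  have h1 : 0 ≤ W * (W ^ 2 - ∑ τ ∈ E, F (k, τ) ^ 2) := by
    rw [← key]
    positivity
  have h2 := nonneg_of_mul_nonneg_right h1 hW
  linarith

/-- the periods of the summands -/
theorem period_zero {F : X × T → ℝ} {W : ℝ} (h0 : F 0 = W)
    (hτ : ∀ τ : T, τ ≠ 0 → F (0, τ) = 0) {r : ℕ} {ψ : Fin r → X × T → ℝ}
    (hsum : ∀ x, F x = ∑ j, ψ j x) (hψ : ∀ j, PD (ψ j)) {j : Fin r} (hj : 0 < ψ j 0) {τ : T}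
    (hper : ψ j (0, τ) = ψ j 0) (htf : ∀ m : ℤ, m ≠ 0 → m • τ = 0 → τ = 0) : τ = 0 := by
  classical
  by_contra hne
  have hmul : ∀ m : ℤ, m ≠ 0 → m • τ ≠ 0 := fun m hm h => hne (htf m hm h)
  -- the period and its multiples
  have hperm : ∀ m : ℕ, ψ j (0, m • τ) = ψ j 0 := by
    intro m
    induction m with
    | zero => rw [zero_smul]; rfl
    | succ m ih =>
      have h1 := periodic (hψ j) hper (0, m • τ)
      rw [Prod.mk_add_mk, add_zero, ih] at h1
      rw [succ_nsmul]
      exact h1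
  have hperz : ∀ m : ℤ, ψ j (0, m • τ) = ψ j 0 := by
    intro m
    rcases Int.eq_nat_or_neg m with ⟨l, rfl | rfl⟩
    · rw [natCast_zsmul]
      exact hperm l
    · rw [neg_smul, natCast_zsmul]
      have := (hψ j).symm (0, l • τ)
      rw [Prod.neg_mk, neg_zero] at this
      rw [this, hperm]
  obtain ⟨N, hN⟩ := exists_nat_gt (W / ψ j 0)
  have hN0 : (0 : ℝ) < N := by
    have hW0 : 0 ≤ W := by
      rw [← h0, hsum]
      exact Finset.sum_nonneg fun i _ => by
        have := (hψ i).nonneg {0} fun _ => 1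
        simpa using this
    exact lt_of_le_of_lt (by positivity) hN
  -- the points `(0, m τ)`
  set pt : ℕ → X × T := fun m => (0, (m : ℤ) • τ) with hpt
  have hptsub : ∀ m m' : ℕ, pt m - pt m' = (0, ((m : ℤ) - m') • τ) := by
    intro m m'
    simp only [hpt]
    rw [Prod.mk_sub_mk, sub_self, sub_smul]
  have hinj : Function.Injective pt := by
    intro m m' h
    by_contra hmm
    have h1 : ((m : ℤ) - m') • τ = 0 := by
      have := hptsub m m'
      rw [h, sub_self] at this
      exact (congrArg Prod.snd this).symm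
    exact hmul _ (by omega) h1
  have hpos : ∀ i, 0 ≤ ∑ m ∈ Finset.range N, ∑ m' ∈ Finset.range N, ψ i (pt m - pt m') := by
    intro i
    have h1 := (hψ i).nonneg ((Finset.range N).map ⟨pt, hinj⟩) fun _ => 1
    rw [Finset.sum_map] at h1
    simp only [Finset.sum_map, Function.Embedding.coeFn_mk, one_mul] at h1
    exact h1
  have hFsum : ∑ m ∈ Finset.range N, ∑ m' ∈ Finset.range N, F (pt m - pt m') = N * W := by
    have h1 : ∀ m ∈ Finset.range N, ∑ m' ∈ Finset.range N, F (pt m - pt m') = W := by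
      intro m hm
      rw [Finset.sum_eq_single m]
      · rw [sub_self, h0]
      · intro m' _ hne'
        rw [hptsub]
        exact hτ _ (hmul _ (by omega))
      · intro h
        exact absurd hm h
    rw [Finset.sum_congr rfl h1, Finset.sum_const, Finset.card_range, nsmul_eq_mul]
  have hswap : ∑ m ∈ Finset.range N, ∑ m' ∈ Finset.range N, F (pt m - pt m') =
      ∑ i, ∑ m ∈ Finset.range N, ∑ m' ∈ Finset.range N, ψ i (pt m - pt m') := by
    rw [Finset.sum_comm (s := Finset.univ) (t := Finset.range N)]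
    refine Finset.sum_congr rfl fun m _ => ?_
    rw [Finset.sum_comm (s := Finset.univ) (t := Finset.range N)]
    exact Finset.sum_congr rfl fun m' _ => hsum _
  have hjsum : ∑ m ∈ Finset.range N, ∑ m' ∈ Finset.range N, ψ j (pt m - pt m') =
      N * (N * ψ j 0) := by
    have h1 : ∀ m ∈ Finset.range N, ∑ m' ∈ Finset.range N, ψ j (pt m - pt m') = N * ψ j 0 := by
      intro m _
      rw [Finset.sum_congr rfl fun m' _ => by rw [hptsub, hperz], Finset.sum_const,
        Finset.card_range, nsmul_eq_mul]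
    rw [Finset.sum_congr rfl h1, Finset.sum_const, Finset.card_range, nsmul_eq_mul]
  have hle : N * (N * ψ j 0) ≤ N * W := by
    rw [← hFsum, hswap, ← hjsum]
    exact Finset.single_le_sum (f := fun i => ∑ m ∈ Finset.range N, ∑ m' ∈ Finset.range N,
      ψ i (pt m - pt m')) (fun i _ => hpos i) (Finset.mem_univ j)
  have h2 : N * ψ j 0 ≤ W := le_of_mul_le_mul_left hle hN0
  rw [div_lt_iff₀ hj] at hN
  linarith

end

end Pool.Agent.V8H35.GS
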