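import Mathlib

/-!
# Satake parameters and L-functions for `GSp(2n)`: definitions

`G = GSp(2n)` over `ℚ`, `^LG = GSpin(2n+1)`. The unramified principal series of `G(ℚ_p)` given by the
unramified characters `χ_1, …, χ_n; χ_0` has the Satake parameter `(b_0; b_1, …, b_n)`,
`b_j = χ_j(p)`, in the maximal torus of `^LG`. The eigenvalues of the spin representation are the numbers
`b_0 ∏_{j ∈ J} b_j`, `J ⊆ {1, …, n}`; the eigenvalues of the representation of degree `2n+1` are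
`1, b_j, b_j⁻¹`; the similitude character is `b_0² b_1 ⋯ b_n`.
-/

set_option autoImplicit false

namespace Pool.Agent.V8H35.GS

open Complex Filter Topology MeasureTheory ComplexConjugate

/-- The characters (weights) of the maximal torus of `^LG = GSpin(2n+1)`: the pair `(k_0, k)` is the
character `(b_0; b_1, …, b_n) ↦ b_0 ^ k_0 ∏ b_j ^ k_j`. -/
abbrev Weight (n : ℕ) : Type := ℤ × (Fin n → ℤ)

/-- The points `(b_0; b_1, …, b_n)` of the torus with values in the group `M`: the maximal torus of `^LG` for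
`M = ℂˣ`, its maximal compact subgroup for `M = Circle`. -/
abbrev Torus (n : ℕ) (M : Type) : Type := M × (Fin n → M)

/-- The value `b_0 ^ k_0 ∏ b_j ^ k_j` of the weight `k` at `b`. -/
def ev {n : ℕ} {M : Type} [CommGroup M] (k : Weight n) (b : Torus n M) : M :=
  b.1 ^ k.1 * ∏ j, b.2 j ^ k.2 j

/-- The Weyl group of `^LG`, of order `2^n n!`: pairs of a permutation `σ` and a set `J` of indices. -/
abbrev Weyl (n : ℕ) : Type := Equiv.Perm (Fin n) × Finset (Fin n)

/-- The Weyl group acts on the torus: `b_0` goes to `b_0 ∏_{j ∈ J} b_j`, and `b_j` goes to the place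
`σ j`, inverted if `j ∈ J`. -/
def Weyl.onTorus {n : ℕ} {M : Type} [CommGroup M] (w : Weyl n) (b : Torus n M) : Torus n M :=
  (b.1 * ∏ j ∈ w.2, b.2 j,
    fun i => if w.1.symm i ∈ w.2 then (b.2 (w.1.symm i))⁻¹ else b.2 (w.1.symm i))

/-- The action of the Weyl group on the weights: `(w k)(b) = k(w b)`. -/
def Weyl.onWeight {n : ℕ} (w : Weyl n) (k : Weight n) : Weight n :=
  (k.1, fun j => if j ∈ w.2 then k.1 - k.2 (w.1 j) else k.2 (w.1 j))

/-- The characters of the virtual finite-dimensional (algebraic) representations `ρ` of `^LG`: `m k` is the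
multiplicity of the weight `k`. By the theorem of the highest weight the representation ring of `^LG` is
the ring of the integral combinations of weights which are invariant under the Weyl group. -/
def IsRep {n : ℕ} (m : Weight n →₀ ℤ) : Prop := ∀ (w : Weyl n) (k : Weight n), m (w.onWeight k) = m k

/-- The trace `tr ρ(b) = ∑ m(k) k(b)`. -/
noncomputable def tr {n : ℕ} (m : Weight n →₀ ℤ) (b : Torus n ℂˣ) : ℂ :=
  m.sum fun k c => (c : ℂ) * (ev k b : ℂˣ)

/-- The Satake parameters of a unitary automorphic representation `π` of `GSp(2n)`, unramified outside `S`.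
`A_p` is the conjugacy class of the point `b p` of the torus. As `π` is unitary, the complex conjugate of
`A_p⁻¹` is `A_p`. Some bound `p^θ` for the parameters is known (Langlands). -/
structure Satake {n : ℕ} (S : Finset ℕ) (b : ℕ → Torus n ℂˣ) (θ : ℝ) : Prop where
  unitary : ∀ p : ℕ, p.Prime → p ∉ S → ∃ w : Weyl n, ∀ k : Weight n,
    conj ((ev k (b p) : ℂˣ) : ℂ) = (((ev (w.onWeight k) (b p))⁻¹ : ℂˣ) : ℂ)
  nonneg : 0 ≤ θ
  bound₀ : ∀ p : ℕ, p.Prime → p ∉ S → ‖((b p).1 : ℂ)‖ ≤ (p : ℝ) ^ θ ∧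
    ‖(((b p).1⁻¹ : ℂˣ) : ℂ)‖ ≤ (p : ℝ) ^ θ
  bound : ∀ p : ℕ, p.Prime → p ∉ S → ∀ j, ‖((b p).2 j : ℂ)‖ ≤ (p : ℝ) ^ θ ∧
    ‖((((b p).2 j)⁻¹ : ℂˣ) : ℂ)‖ ≤ (p : ℝ) ^ θ

/-- `L_S(s, π, ρ) = ∏_{p ∉ S} ∏_k (1 - k(A_p) p^{-s})^{-m(k)}`; this is `L_S(s, π, ρ₁) / L_S(s, π, ρ₂)` if
`ρ = ρ₁ - ρ₂`. -/
noncomputable def LFun {n : ℕ} (S : Finset ℕ) (b : ℕ → Torus n ℂˣ) (m : Weight n →₀ ℤ) (s : ℂ) : ℂ :=
  ∏' p : Nat.Primes, if (p : ℕ) ∈ S then 1 else
    ∏ k ∈ m.support, (1 - (ev k (b p) : ℂˣ) * ((p : ℕ) : ℂ) ^ (-s)) ^ (-(m k))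

/-- `log L_S(s, π, ρ) = ∑_{p ∉ S} ∑_{l ≥ 0} tr ρ(A_p ^ (l + 1)) / (l + 1) p^{-(l + 1) s}` -/
noncomputable def logL {n : ℕ} (S : Finset ℕ) (b : ℕ → Torus n ℂˣ) (m : Weight n →₀ ℤ) (s : ℂ) : ℂ :=
  ∑' x : Nat.Primes × ℕ, if (x.1 : ℕ) ∈ S then 0 else
    tr m (b x.1 ^ (x.2 + 1)) / ((x.2 : ℂ) + 1) * (((x.1 : ℕ) : ℂ) ^ (-s)) ^ (x.2 + 1)

/-- The weight `b ↦ b_0 ∏_{j ∈ J} b_j` of the spin representation `r`. -/
def spinWeight {n : ℕ} (J : Finset (Fin n)) : Weight n := (1, fun j => if j ∈ J then 1 else 0)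

/-- The representation `(r ⊗ r^∨)^{⊗ k}`, `r` the spin representation, of degree `4^(n k)`. -/
noncomputable def tensor (n k : ℕ) : Weight n →₀ ℤ :=
  ∑ J : Fin k → Finset (Fin n) × Finset (Fin n),
    Finsupp.single (∑ i, (spinWeight (J i).1 - spinWeight (J i).2)) 1

/-- `L_S(s, π, ρ)` has a meromorphic continuation `U/V` to the half-plane `Re s > 1`, and it has no
poles on the real half-line `(1, ∞)`. -/
def RealPoleFree {n : ℕ} (S : Finset ℕ) (b : ℕ → Torus n ℂˣ) (m : Weight n →₀ ℤ) : Prop :=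
  ∃ (U V : ℂ → ℂ) (σ : ℝ), DifferentiableOn ℂ U {s | 1 < s.re} ∧
    DifferentiableOn ℂ V {s | 1 < s.re} ∧ (∀ t : ℝ, 1 < t → V t ≠ 0) ∧
    ∀ s : ℂ, σ < s.re → LFun S b m s * V s = U s

/-- `log L_S(1 + iτ + ε, π, ρ) / log(1/ε)`; if `L_S(s, π, ρ)` has a meromorphic continuation to a
neighbourhood of `1 + iτ` with a pole of order `a` at `1 + iτ` (a zero of order `-a` if `a < 0`), then this
tends to `a` as `ε → 0+`. -/
noncomputable def size {n : ℕ} (S : Finset ℕ) (b : ℕ → Torus n ℂˣ) (m : Weight n →₀ ℤ) (τ ε : ℝ) : ℂ :=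
  logL S b m (1 + τ * I + ε) / (Real.log (1 / ε) : ℝ)

/-- `Λ` is a meromorphic continuation of the function `L` on the half-plane `Re s > 1` to a
neighbourhood of the point `s₀` of the line `Re s = 1`. -/
def Continues (L Λ : ℂ → ℂ) (s₀ : ℂ) : Prop :=
  MeromorphicAt Λ s₀ ∧ ∀ᶠ s in 𝓝 s₀, 1 < s.re → Λ s = L s

/-- The mean value of a function of the primes, weighted with `p^{-1-ε}`. -/
noncomputable def mean (f : Nat.Primes → ℂ) (ε : ℝ) : ℂ :=
  (∑' p : Nat.Primes, f p * (((p : ℕ) : ℝ) ^ (-(1 + ε)) : ℝ)) /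
    ((∑' p : Nat.Primes, ((p : ℕ) : ℝ) ^ (-(1 + ε)) : ℝ) : ℂ)

/-- The points of the compact torus as points of the complex torus. -/
noncomputable def toC {n : ℕ} (u : Torus n Circle) : Torus n ℂˣ :=
  (Circle.toUnits u.1, fun j => Circle.toUnits (u.2 j))

/-- the Borel sets of the circle -/
noncomputable instance : MeasurableSpace Circle := borel Circle

instance : BorelSpace Circle := ⟨rfl⟩

/-- `μ` is the Haar measure of total mass one of the closed subgroup `K` of the compact torus, as a measure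
on the torus. -/
structure IsHaar {n : ℕ} (K : Subgroup (Torus n Circle)) (μ : Measure (Torus n Circle)) : Prop where
  closed : IsClosed (K : Set (Torus n Circle))
  prob : IsProbabilityMeasure μ
  supp : μ (K : Set (Torus n Circle))ᶜ = 0
  inv : ∀ x ∈ K, μ.map (fun y => x * y) = μ

/-- A simple function on the abelian group `G`: a positive definite function with integral values, which is
constant on the cosets of the subgroup `H = {y | ψ y = ψ 0}` and different from zero on finitely many of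
them only. -/
structure IsSimple {G : Type} [AddCommGroup G] (ψ : G → ℤ) : Prop where
  symm : ∀ x, ψ (-x) = ψ x
  nonneg : ∀ (s : Finset G) (v : G → ℝ), 0 ≤ ∑ x ∈ s, ∑ y ∈ s, v x * v y * (ψ (x - y) : ℝ)
  pos : 0 < ψ 0
  periodic : ∀ x y, ψ y = ψ 0 → ψ (x + y) = ψ x
  fin : ∃ F : Finset G, ∀ x, ψ x ≠ 0 → ∃ y ∈ F, ψ (x - y) = ψ 0

end Pool.Agent.V8H35.GS
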