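import Pool.Agent.V8H35.GS.Basic
import Pool.Agent.V8H32.SymP.Rama

/-! The Euler products and their logarithms. -/

set_option autoImplicit false

namespace Pool.Agent.V8H35.GS

open Complex Filter Topology MeasureTheory ComplexConjugate
open Pool.Agent.V8H32.SymP (LL LL_nonneg exp_LL cexp_LL summable_pm cN hcN)
open Pool.Agent.W189.TP

section

variable {κ : Type*}

/-- the coefficients of the logarithm of an Euler product -/
noncomputable def cog (S : Finset ℕ) (K : Finset κ) (c : κ → ℤ) (y : Nat.Primes → κ → ℂ)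
    (x : Nat.Primes × ℕ) : ℂ :=
  if (x.1 : ℕ) ∈ S then 0 else (∑ k ∈ K, (c k : ℂ) * y x.1 k ^ (x.2 + 1)) / ((x.2 : ℂ) + 1)

variable {S : Finset ℕ} {K : Finset κ} {c : κ → ℤ} {y : Nat.Primes → κ → ℂ} {A : ℝ}

theorem norm_cog (hy : ∀ p : Nat.Primes, (p : ℕ) ∉ S → ∀ k ∈ K, ‖y p k‖ ≤ ((p : ℕ) : ℝ) ^ A)
    (x : Nat.Primes × ℕ) :
    ‖cog S K c y x‖ ≤ (∑ k ∈ K, |(c k : ℝ)|) * (((x.1 : ℕ) : ℝ) ^ A) ^ (x.2 + 1) / (x.2 + 1) := by
  unfold cog
  split_ifs with hS
  · rw [norm_zero]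
    positivity
  · rw [norm_div]
    have h1 : ‖(x.2 : ℂ) + 1‖ = (x.2 : ℝ) + 1 := by
      have : (x.2 : ℂ) + 1 = (((x.2 : ℝ) + 1 : ℝ) : ℂ) := by push_cast; rfl
      rw [this, Complex.norm_real, Real.norm_of_nonneg (by positivity)]
    rw [h1]
    refine div_le_div_of_nonneg_right ?_ (by positivity)
    refine (norm_sum_le _ _).trans ?_
    rw [Finset.sum_mul]
    refine Finset.sum_le_sum fun k hk => ?_
    rw [norm_mul, norm_pow]
    have h2 : ‖(c k : ℂ)‖ = |(c k : ℝ)| := Complex.norm_intCast _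
    rw [h2]
    exact mul_le_mul_of_nonneg_left (pow_le_pow_left₀ (norm_nonneg _) (hy x.1 hS k hk) _)
      (abs_nonneg _)

theorem summable_cog (hy : ∀ p : Nat.Primes, (p : ℕ) ∉ S → ∀ k ∈ K, ‖y p k‖ ≤ ((p : ℕ) : ℝ) ^ A)
    {σ : ℝ} (hσ : A + 1 < σ) :
    Summable fun x : Nat.Primes × ℕ => ‖cog S K c y x‖ * Real.exp (-(σ * LL x)) := by
  refine Summable.of_nonneg_of_le (fun x => by positivity) (fun x => ?_)
    ((summable_pm (a := σ - A) (by linarith)).mul_left (∑ k ∈ K, |(c k : ℝ)|))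
  rw [exp_LL]
  have hp0 : (0 : ℝ) < (x.1 : ℕ) := by exact_mod_cast x.1.2.pos
  have h1 := norm_cog (c := c) hy x
  have h2 : (∑ k ∈ K, |(c k : ℝ)|) * (((x.1 : ℕ) : ℝ) ^ A) ^ (x.2 + 1) / (x.2 + 1) ≤
      (∑ k ∈ K, |(c k : ℝ)|) * (((x.1 : ℕ) : ℝ) ^ A) ^ (x.2 + 1) := by
    refine div_le_self (by positivity) ?_
    have : (0 : ℝ) ≤ x.2 := by positivity
    linarith
  refine (mul_le_mul_of_nonneg_right (h1.trans h2) (by positivity)).trans (le_of_eq ?_)
  rw [mul_assoc, ← mul_pow, ← Real.rpow_add hp0]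
  congr 3
  ring

theorem summable_cog' (hy : ∀ p : Nat.Primes, (p : ℕ) ∉ S → ∀ k ∈ K, ‖y p k‖ ≤ ((p : ℕ) : ℝ) ^ A)
    {s : ℂ} (hs : A + 1 < s.re) :
    Summable fun x : Nat.Primes × ℕ => cog S K c y x * cexp (-(s * LL x)) := by
  refine Summable.of_norm ((summable_cog (c := c) hy hs).congr fun x => ?_)
  rw [norm_mul, Complex.norm_exp]
  congr 2
  simp

/-- the logarithm of the Euler product -/
theorem exp_cog (hy : ∀ p : Nat.Primes, (p : ℕ) ∉ S → ∀ k ∈ K, ‖y p k‖ ≤ ((p : ℕ) : ℝ) ^ A)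
    {s : ℂ} (hs : A + 1 < s.re) :
    HasProd (fun p : Nat.Primes => if (p : ℕ) ∈ S then 1 else
      ∏ k ∈ K, (1 - y p k * ((p : ℕ) : ℂ) ^ (-s)) ^ (-(c k)))
      (cexp (∑' x : Nat.Primes × ℕ, cog S K c y x * cexp (-(s * LL x)))) := by
  have hzp : ∀ p : Nat.Primes, (p : ℕ) ∉ S → ∀ k ∈ K, ‖y p k * ((p : ℕ) : ℂ) ^ (-s)‖ < 1 := by
    intro p hS k hk
    have hp0 : (0 : ℝ) < (p : ℕ) := by exact_mod_cast p.2.pos
    have hp1 : (1 : ℝ) < (p : ℕ) := by exact_mod_cast p.2.one_lt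
    rw [norm_mul, Complex.norm_natCast_cpow_of_pos p.2.pos]
    calc ‖y p k‖ * ((p : ℕ) : ℝ) ^ (-s).re ≤ ((p : ℕ) : ℝ) ^ A * ((p : ℕ) : ℝ) ^ (-s).re :=
          mul_le_mul_of_nonneg_right (hy p hS k hk) (by positivity)
      _ = ((p : ℕ) : ℝ) ^ (A - s.re) := by
          rw [← Real.rpow_add hp0]
          congr 1
      _ < 1 := Real.rpow_lt_one_of_one_lt_of_neg hp1 (by linarith)
  have hfib : ∀ p : Nat.Primes, HasSum (fun m : ℕ => cog S K c y (p, m) * cexp (-(s * LL (p, m))))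
      (if (p : ℕ) ∈ S then 0 else ∑ k ∈ K,
        (c k : ℂ) * -Complex.log (1 - y p k * ((p : ℕ) : ℂ) ^ (-s))) := by
    intro p
    by_cases hS : (p : ℕ) ∈ S
    · rw [if_pos hS]
      unfold cog
      simp only [if_pos hS]
      simp
    · rw [if_neg hS]
      have h2 : HasSum (fun m : ℕ => ∑ k ∈ K, (c k : ℂ) *
          ((y p k * ((p : ℕ) : ℂ) ^ (-s)) ^ (m + 1) / ((m + 1 : ℕ) : ℂ)))
          (∑ k ∈ K, (c k : ℂ) * -Complex.log (1 - y p k * ((p : ℕ) : ℂ) ^ (-s))) := by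
        refine hasSum_sum fun k hk => HasSum.mul_left _ ?_
        have h3 := Complex.hasSum_taylorSeries_neg_log (hzp p hS k hk)
        rw [← hasSum_nat_add_iff' 1] at h3
        simp only [Finset.range_one, Finset.sum_singleton, pow_zero, Nat.cast_zero, div_zero,
          sub_zero] at h3
        exact h3
      refine h2.congr_fun fun m => ?_
      rw [cexp_LL]
      unfold cog
      simp only [if_neg hS]
      rw [div_mul_eq_mul_div, Finset.sum_mul, Finset.sum_div]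
      refine Finset.sum_congr rfl fun k _ => ?_
      rw [mul_pow]
      push_cast
      ring
  have h3 := ((summable_cog' (c := c) hy hs).hasSum.prod_fiberwise hfib).cexp
  refine h3.congr_fun fun p => ?_
  simp only [Function.comp]
  split_ifs with hS
  · simp
  · rw [Complex.exp_sum]
    refine Finset.prod_congr rfl fun k hk => ?_
    have hne : 1 - y p k * ((p : ℕ) : ℂ) ^ (-s) ≠ 0 := by
      intro h5
      have h6 := hzp p hS k hk
      rw [← sub_eq_zero.1 h5, norm_one] at h6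
      exact lt_irrefl _ h6
    have h4 : (c k : ℂ) * -Complex.log (1 - y p k * ((p : ℕ) : ℂ) ^ (-s)) =
        ((-(c k) : ℤ) : ℂ) * Complex.log (1 - y p k * ((p : ℕ) : ℂ) ^ (-s)) := by
      push_cast
      ring
    rw [h4, Complex.exp_int_mul, Complex.exp_log hne]

theorem diff_cog (hy : ∀ p : Nat.Primes, (p : ℕ) ∉ S → ∀ k ∈ K, ‖y p k‖ ≤ ((p : ℕ) : ℝ) ^ A) :
    DifferentiableOn ℂ (fun s => ∑' x : Nat.Primes × ℕ, cog S K c y x * cexp (-(s * LL x)))
      {s | A + 1 < s.re} := by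
  have hs1 : ∀ t, A + 1 < t → Summable fun x : Nat.Primes × ℕ =>
      |(cog S K c y x).re| * Real.exp (-(t * LL x)) := fun t ht =>
    Summable.of_nonneg_of_le (fun x => by positivity) (fun x => mul_le_mul_of_nonneg_right
      (Complex.abs_re_le_norm _) (Real.exp_pos _).le) (summable_cog (c := c) hy ht)
  have hs2 : ∀ t, A + 1 < t → Summable fun x : Nat.Primes × ℕ =>
      |(cog S K c y x).im| * Real.exp (-(t * LL x)) := fun t ht =>
    Summable.of_nonneg_of_le (fun x => by positivity) (fun x => mul_le_mul_of_nonneg_right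
      (Complex.abs_im_le_norm _) (Real.exp_pos _).le) (summable_cog (c := c) hy ht)
  have h1 : DifferentiableOn ℂ (DS (fun x => (cog S K c y x).re) LL) {s | A + 1 < s.re} :=
    DS_diff LL_nonneg hs1
  have h2 : DifferentiableOn ℂ (DS (fun x => (cog S K c y x).im) LL) {s | A + 1 < s.re} :=
    DS_diff LL_nonneg hs2
  refine (h1.add (h2.const_mul I)).congr fun s hs => ?_
  have hs' : A + 1 < s.re := hs
  simp only [Pi.add_apply]
  unfold DS
  rw [← tsum_mul_left, ← (summ_cplx LL_nonneg le_rfl (hs1 _ hs')).tsum_add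
    ((summ_cplx LL_nonneg le_rfl (hs2 _ hs')).mul_left I)]
  refine tsum_congr fun x => ?_
  conv_lhs => rw [← Complex.re_add_im (cog S K c y x)]
  ring

end

end Pool.Agent.V8H35.GS
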