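import Pool.Agent.V8H35.GS.Bess
import Pool.Agent.V8H35.GS.Defs

/-! The supports of simple functions lie over a finitely generated group. -/

set_option autoImplicit false

namespace Pool.Agent.V8H35.GS

open Pool.Agent.V8H32.Coh
open Pool.Agent.H235R3.PT (PD)

/-- the subgroup of the periods, as a submodule -/
def perM {G : Type} [AddCommGroup G] {ψ : G → ℝ} (h : PD ψ) : Submodule ℤ G where
  carrier := {x | ψ x = ψ 0}
  zero_mem' := rfl
  add_mem' := fun {a b} ha hb => by
    change ψ (a + b) = ψ 0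
    rw [periodic h hb]
    exact ha
  smul_mem' := fun m x hx => by
    have hx' : ψ x = ψ 0 := hx
    have h1 : ∀ l : ℕ, ψ (l • x) = ψ 0 := by
      intro l
      induction l with
      | zero => rw [zero_smul]
      | succ l ih => rw [succ_nsmul, periodic h hx', ih]
    change ψ (m • x) = ψ 0
    rcases Int.eq_nat_or_neg m with ⟨l, rfl | rfl⟩
    · rw [natCast_zsmul]
      exact h1 l
    · rw [neg_smul, natCast_zsmul, h.symm, h1]

theorem fg_support {n : ℕ} {T : AddSubgroup ℝ} {r : ℕ} {ψ : Fin r → Weight n × T → ℝ}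
    (hψ : ∀ j, Simple (ψ j)) (hper : ∀ j (τ : T), ψ j (0, τ) = ψ j 0 → τ = 0) :
    ∃ T₀ : AddSubgroup T, T₀.FG ∧ ∀ j k τ, ψ j (k, τ) ≠ 0 → τ ∈ T₀ := by
  classical
  have hF := fun j => (hψ j).fin
  choose F hF using hF
  let pr : (Weight n × T) →ₗ[ℤ] T := LinearMap.snd ℤ (Weight n) T
  let M : Submodule ℤ T := ⨆ j, ((perM (hψ j).pd).map pr ⊔
    Submodule.span ℤ ((F j).image fun y => y.2 : Finset T))
  refine ⟨M.toAddSubgroup, ?_, fun j k τ hne => ?_⟩
  · rw [← Submodule.fg_iff_addSubgroup_fg]
    refine Submodule.fg_iSup _ fun j => Submodule.FG.sup ?_ ?_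
    · refine Submodule.FG.map _ ?_
      have hinj : Function.Injective
          ((LinearMap.fst ℤ (Weight n) T).comp (perM (hψ j).pd).subtype) := by
        rw [← LinearMap.ker_eq_bot, LinearMap.ker_eq_bot']
        rintro ⟨⟨k, τ⟩, hx⟩ h0
        have hk : k = 0 := h0
        subst hk
        have hτ := hper j τ hx
        subst hτ
        rfl
      exact Module.Finite.iff_fg.1 (Module.Finite.of_injective _ hinj)
    · exact Submodule.fg_span (Finset.finite_toSet _)
  · obtain ⟨y, hy, hy2⟩ := hF j (k, τ) hne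
    change τ ∈ M
    have h1 : ((k, τ) - y).2 + y.2 = τ := by
      rw [Prod.snd_sub]
      simp
    rw [← h1]
    refine Submodule.mem_iSup_of_mem j (Submodule.add_mem _ ?_ ?_)
    · exact Submodule.mem_sup_left ⟨(k, τ) - y, hy2, rfl⟩
    · refine Submodule.mem_sup_right (Submodule.subset_span ?_)
      exact_mod_cast Finset.mem_image_of_mem _ hy

end Pool.Agent.V8H35.GS
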