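import Pool.Agent.V8H35.GS.Law
import Pool.Agent.V8H35.GS.FG

/-! The theorem. -/

set_option autoImplicit false

namespace Pool.Agent.V8H35.GS

open Complex Filter Topology MeasureTheory ComplexConjugate
open Pool.Agent.V8H32.Coh
open Pool.Agent.V8H32.SymP (cN hcN pz norm_pz pz_zero lim_one)
open Pool.Agent.H235R3.PT (PD)

section

variable {n : ℕ}

/-- restriction of a simple function to the weights -/
theorem simple_restrict {T : AddSubgroup ℝ} {ψ : Weight n × T → ℝ} (h : Simple ψ) :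
    Simple fun k : Weight n => ψ (k, 0) := by
  classical
  refine ⟨⟨fun k => ?_, fun s v => ?_⟩, fun k => h.int _, h.ne, ?_⟩
  · have := h.pd.symm (k, 0)
    rwa [Prod.neg_mk, neg_zero] at this
  · have hinj : Function.Injective fun k : Weight n => ((k, 0) : Weight n × T) :=
      fun a b hab => congrArg Prod.fst hab
    have h1 := h.pd.nonneg (s.map ⟨_, hinj⟩) fun x => v x.1
    rw [Finset.sum_map] at h1
    refine h1.trans (le_of_eq ?_)
    refine Finset.sum_congr rfl fun x _ => ?_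
    rw [Finset.sum_map]
    refine Finset.sum_congr rfl fun y _ => ?_
    simp only [Function.Embedding.coeFn_mk, Prod.mk_sub_mk, sub_zero]
  · obtain ⟨F, hF⟩ := h.fin
    have h1 : ∀ y : Weight n × T, ∃ l : Weight n, (∃ k : Weight n, ψ ((k, 0) - y) = ψ 0) →
        ψ ((l, 0) - y) = ψ 0 := by
      intro y
      by_cases hy : ∃ k : Weight n, ψ ((k, 0) - y) = ψ 0
      · obtain ⟨k, hk⟩ := hy
        exact ⟨k, fun _ => hk⟩
      · exact ⟨0, fun h => absurd h hy⟩
    choose l hl using h1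
    refine ⟨F.image l, fun k hk => ?_⟩
    obtain ⟨y, hy, hy2⟩ := hF (k, 0) hk
    refine ⟨l y, Finset.mem_image_of_mem _ hy, ?_⟩
    have h3 := hl y ⟨k, hy2⟩
    have h4 : ψ (((k, 0) - y) + -((l y, 0) - y)) = ψ ((k, 0) - y) :=
      periodic h.pd (by rw [h.pd.symm]; exact h3) _
    have h5 : ((k, (0 : T)) - y) + -((l y, (0 : T)) - y) = (k - l y, 0) := by
      rw [neg_sub]
      rw [show (k, (0 : T)) - y + (y - (l y, (0 : T))) = (k, (0 : T)) - (l y, (0 : T)) by abel]
      rw [Prod.mk_sub_mk, sub_zero]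
    rw [h5, hy2] at h4
    exact h4

theorem limC_one : LimC (fun _ => 1) 1 := by
  constructor
  · simpa using lim_one
  · simpa using Lim.zero (N := cN)

end

section

variable {n : ℕ} {S : Finset ℕ} {b : ℕ → Torus n ℂˣ} {θ : ℝ}

theorem main {T : AddSubgroup ℝ} {u : ℕ → Torus n Circle}
    (hu : ∀ p : ℕ, p.Prime → p ∉ S → toC (u p) = b p)
    (hord : ∀ m : Weight n →₀ ℤ, IsRep m → ∀ τ ∈ T,
      ∃ a : ℤ, Tendsto (size S b m τ) (𝓝[>] 0) (𝓝 (a : ℂ))) :
    ∃ (r : ℕ) (ψ : Fin r → Weight n × T → ℤ) (K : Fin r → Subgroup (Torus n Circle))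
      (μ : Fin r → Measure (Torus n Circle)) (f : Fin r → Weight n →₀ ℤ),
      r ≤ 2 ^ n * n.factorial ∧ (∀ j, IsSimple (ψ j)) ∧
      ∑ j, ψ j 0 = ((2 ^ n * n.factorial : ℕ) : ℤ) ∧
      (∀ j x, x ∈ K j ↔ ∀ k, ψ j (k, 0) = ψ j 0 → ev k x = 1) ∧ (∀ j, IsHaar (K j) (μ j)) ∧
      (∀ j, ∀ x ∈ K j, ∃ a : ℝ, 0 ≤ a ∧ tr (f j) (toC x) = a) ∧
      (∀ j k, ∫ x, ((ev k x : Circle) : ℂ) * tr (f j) (toC x) ∂μ j = (ψ j (k, 0) : ℂ)) ∧
      (∀ m : Weight n →₀ ℤ, IsRep m → ∀ τ : T, ∃ a : ℤ,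
        Tendsto (size S b m τ) (𝓝[>] 0) (𝓝 (a : ℂ)) ∧
        ((2 ^ n * n.factorial : ℕ) : ℤ) * a = ∑ k ∈ m.support, m k * ∑ j, ψ j (k, τ) ∧
        ∀ Λ : ℂ → ℂ, Continues (LFun S b m) Λ (1 + (τ : ℝ) * I) →
          meromorphicOrderAt Λ (1 + (τ : ℝ) * I) = ((-a : ℤ) : WithTop ℤ)) ∧
      (∀ (k : Weight n) (E : Finset T),
        ∑ τ ∈ E, (∑ j, ψ j (k, τ)) ^ 2 ≤ ((2 ^ n * n.factorial : ℕ) : ℤ) ^ 2) ∧
      (∃ T₀ : AddSubgroup T, T₀.FG ∧ ∀ j k τ, ψ j (k, τ) ≠ 0 → τ ∈ T₀) ∧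
      ∀ g : Torus n Circle → ℂ, Continuous g →
        Tendsto (mean fun p => if (p : ℕ) ∈ S then 0 else ∑ w : Weyl n, g (w.onTorus (u p)))
          (𝓝[>] 0) (𝓝 (∑ j, ∫ x, g x * tr (f j) (toC x) ∂μ j)) := by
  classical
  -- the orders
  have hF : ∀ x : Weight n × T, ∃ a : ℤ,
      LimC (fun p => ∑ w : Weyl n, chr u w x p) (((a : ℤ) : ℝ) : ℂ) := by
    intro x
    obtain ⟨a, ha⟩ := hord (orb x.1) (orb_isRep _) x.2 x.2.2
    refine ⟨a, ?_⟩
    have h1 := (size_iff' hu (orb x.1) (x.2 : ℝ) (a : ℂ)).2 ha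
    rw [show (((a : ℤ) : ℝ) : ℂ) = (a : ℂ) by push_cast; rfl]
    exact h1.congr fun p => tr_orb_chr u x p
  choose F hF using hF
  have hpd : PD fun x => ((F x : ℤ) : ℝ) := pd_of_lim hF
  obtain ⟨r, ψ, hsum, hψ⟩ := cohen hpd fun x => ⟨F x, rfl⟩
  have hF0 : F 0 = ((2 ^ n * n.factorial : ℕ) : ℤ) := by
    have h1 := hF 0
    have h2 : LimC (fun p => ∑ w : Weyl n, chr u w (0 : Weight n × T) p)
        ((Fintype.card (Weyl n) : ℂ) * 1) := by
      refine (limC_one.const_mul (Fintype.card (Weyl n) : ℂ)).congr fun p => ?_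
      rw [Finset.sum_congr rfl fun w _ => chr_zero u w p, Finset.sum_const, Finset.card_univ,
        nsmul_eq_mul]
    have h3 := h1.unique h2
    rw [card_weyl, mul_one] at h3
    exact_mod_cast h3
  have hint := fun j => (hψ j).int
  choose N hN using hint
  have hNsum : ∀ x, ∑ j, N j x = F x := by
    intro x
    have h1 := hsum x
    rw [Finset.sum_congr rfl fun j _ => hN j x] at h1
    exact_mod_cast h1.symm
  have hψ1 : ∀ j, (1 : ℝ) ≤ ψ j 0 := by
    intro j
    have h2 : 0 ≤ ψ j 0 := by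
      have := (hψ j).pd.nonneg {0} fun _ => 1
      simpa using this
    have h3 := IsInt.one_le_abs ((hψ j).int 0) (hψ j).ne
    rwa [abs_of_nonneg h2] at h3
  have hN0 : ∀ j, 0 < N j 0 := by
    intro j
    have h1 := hψ1 j
    rw [hN j 0] at h1
    have h2 : (0 : ℝ) < N j 0 := by linarith
    exact_mod_cast h2
  have hiff : ∀ j x, N j x = N j 0 ↔ ψ j x = ψ j 0 := by
    intro j x
    rw [hN j x, hN j 0]
    norm_cast
  -- the points `1 + iτ` for the trivial representation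
  have hF0τ : ∀ τ : T, τ ≠ 0 → F (0, τ) = 0 := by
    intro τ hτ
    have hτ' : (τ : ℝ) ≠ 0 := by
      intro h
      exact hτ (Subtype.ext h)
    have h1 := (hF (0, τ)).re
    have h2 := (Pool.Agent.V8H32.SymP.lim_cos hτ').const_mul (Fintype.card (Weyl n) : ℝ)
    have h3 : Lim cN (fun p => (∑ w : Weyl n, chr u w ((0 : Weight n), τ) p).re)
        ((Fintype.card (Weyl n) : ℝ) * 0) := by
      refine h2.congr fun p => ?_
      have h4 : ∀ w : Weyl n, chr u w ((0 : Weight n), τ) p = ((p : ℕ) : ℂ) ^ (-(((τ : ℝ) : ℂ) * I)) := by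
        intro w
        unfold chr
        rw [ev_zero, Circle.coe_one, one_mul]
        rfl
      rw [Finset.sum_congr rfl fun w _ => h4 w, Finset.sum_const, Finset.card_univ, nsmul_eq_mul,
        show ((Fintype.card (Weyl n) : ℕ) : ℂ) = (((Fintype.card (Weyl n) : ℕ) : ℝ) : ℂ) from
          (Complex.ofReal_natCast _).symm, Complex.re_ofReal_mul]
    have h5 := h1.unique h3
    rw [mul_zero, Complex.ofReal_re] at h5
    exact_mod_cast h5
  have hWpos : (0 : ℝ) < ((2 ^ n * n.factorial : ℕ) : ℝ) := by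
    have := n.factorial_pos
    positivity
  have hF0r : ((F 0 : ℤ) : ℝ) = ((2 ^ n * n.factorial : ℕ) : ℝ) := by
    rw [hF0]
    norm_cast
  have hmeas := fun j => simple_measure (simple_restrict (hψ j))
  choose K μ f hK hμ hpos hcoef using hmeas
  refine ⟨r, N, K, μ, f, ?_, fun j => ?_, ?_, fun j x => ?_, hμ, hpos, fun j k => ?_,
    fun m hm τ => ?_, fun k E => ?_, ?_, fun g hg => ?_⟩
  · -- the number of the pieces
    have h1 : ∑ j, N j 0 = ((2 ^ n * n.factorial : ℕ) : ℤ) := by rw [hNsum, hF0]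
    have h2 : ∑ _j : Fin r, (1 : ℤ) ≤ ∑ j, N j 0 := Finset.sum_le_sum fun j _ => hN0 j
    rw [h1] at h2
    simp only [Finset.sum_const, Finset.card_univ, Fintype.card_fin, nsmul_eq_mul, mul_one] at h2
    exact_mod_cast h2
  · refine ⟨fun x => ?_, fun s v => ?_, hN0 j, fun x y hy => ?_, ?_⟩
    · have := (hψ j).pd.symm x
      rw [hN, hN] at this
      exact_mod_cast this
    · have := (hψ j).pd.nonneg s v
      simp only [hN] at this
      exact this
    · have := periodic (hψ j).pd ((hiff j y).1 hy) x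
      rw [hN, hN] at this
      exact_mod_cast this
    · obtain ⟨E, hE⟩ := (hψ j).fin
      refine ⟨E, fun x hx => ?_⟩
      obtain ⟨y, hy, hy2⟩ := hE x (by
        rw [hN]
        exact_mod_cast hx)
      exact ⟨y, hy, (hiff j _).2 hy2⟩
  · rw [hNsum, hF0]
  · rw [hK]
    refine forall_congr' fun k => ?_
    exact imp_congr_left (hiff j (k, 0)).symm
  · rw [hcoef, hN]
    norm_cast
  · -- the orders
    obtain ⟨a, ha⟩ := hord m hm τ τ.2
    refine ⟨a, ha, ?_, fun Λ hΛ => ?_⟩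
    · have h1 := ((size_iff' hu m (τ : ℝ) (a : ℂ)).2 ha).const_mul (Fintype.card (Weyl n) : ℂ)
      have h2 : LimC (fun p => (Fintype.card (Weyl n) : ℂ) * (tr m (toC (u p)) * pz (τ : ℝ) p))
          (∑ k ∈ m.support, (m k : ℂ) * (((F (k, τ) : ℤ) : ℝ) : ℂ)) := by
        refine (LimC.sum m.support fun k _ => (hF (k, τ)).const_mul (m k : ℂ)).congr fun p => ?_
        rw [← mul_assoc, card_tr hm, Finset.sum_mul]
        refine Finset.sum_congr rfl fun k _ => ?_
        rw [mul_assoc]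
        congr 1
        exact (tr_orb_chr u (k, τ) p).symm
      have h3 := h1.unique h2
      rw [card_weyl] at h3
      have h4 : (((2 ^ n * n.factorial : ℕ) : ℤ) : ℂ) * (a : ℂ) =
          ((∑ k ∈ m.support, m k * F (k, τ) : ℤ) : ℂ) := by
        push_cast at h3 ⊢
        exact h3
      have h5 : ((2 ^ n * n.factorial : ℕ) : ℤ) * a = ∑ k ∈ m.support, m k * F (k, τ) := by
        exact_mod_cast h4
      rw [h5]
      exact Finset.sum_congr rfl fun k _ => by rw [hNsum]
    · obtain ⟨a', h1, h2⟩ := continues_order hu m τ hΛ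
      have h3 := tendsto_nhds_unique ha h2
      have h4 : a = a' := by exact_mod_cast h3
      rw [h1, h4]
  · -- Bessel's inequality
    have h1 := bessel hpd hWpos hF0r (fun τ hτ => by rw [hF0τ τ hτ, Int.cast_zero]) k E
    simp only [hNsum]
    exact_mod_cast h1
  · -- the finitely generated group
    obtain ⟨T₀, h1, h2⟩ := fg_support hψ fun j τ hj =>
      period_zero hF0r (fun τ hτ => by rw [hF0τ τ hτ, Int.cast_zero]) hsum (fun j => (hψ j).pd)
        (lt_of_lt_of_le one_pos (hψ1 j)) hj fun m hm h => by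
          have h3 : m • (τ : ℝ) = 0 := by
            have := congrArg (Subtype.val : T → ℝ) h
            simpa using this
          rcases smul_eq_zero.1 h3 with h4 | h4
          · exact absurd h4 hm
          · exact Subtype.ext h4
    refine ⟨T₀, h1, fun j k τ hne => h2 j k τ ?_⟩
    rw [hN]
    exact_mod_cast hne
  · -- the limit law
    have h1 : ∀ k, LimC (fun p => ∑ w : Weyl n, ((ev k (w.onTorus (u p)) : Circle) : ℂ))
        ((∑ j, (fun j (k : Weight n) => ψ j (k, 0)) j k : ℝ) : ℂ) := by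
      intro k
      rw [← hsum (k, 0)]
      refine (hF (k, 0)).congr fun p => Finset.sum_congr rfl fun w _ => ?_
      unfold chr
      simp [pz_zero]
    have h2 := law (fun j => (hμ j).prob) hcoef h1 hg
    refine (limC_iff.1 (h2.of_fin (SP S) fun p hp => ?_)).2
    rw [mem_SP] at hp
    rw [if_neg hp]

end

end Pool.Agent.V8H35.GS
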