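import Pool.Agent.V8H35.GS.Basic

/-! Closed subgroups of the compact torus, their Haar measures and their characters. -/

set_option autoImplicit false

namespace Pool.Agent.V8H35.GS

open Complex Filter Topology MeasureTheory ComplexConjugate

variable {n : ℕ}

theorem exists_haar (K : Subgroup (Torus n Circle)) (hK : IsClosed (K : Set (Torus n Circle))) :
    ∃ μ : Measure (Torus n Circle), IsHaar K μ := by
  have : CompactSpace K := isCompact_iff_compactSpace.1 hK.isCompact
  let ν : Measure K := Measure.haarMeasure (⊤ : TopologicalSpace.PositiveCompacts K)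
  have hν : ν Set.univ = 1 := Measure.haarMeasure_self (K₀ := (⊤ : TopologicalSpace.PositiveCompacts K))
  have hνp : IsProbabilityMeasure ν := ⟨hν⟩
  have hmeas : Measurable (Subtype.val : K → Torus n Circle) := measurable_subtype_coe
  refine ⟨ν.map Subtype.val, hK, Measure.isProbabilityMeasure_map hmeas.aemeasurable, ?_, ?_⟩
  · rw [Measure.map_apply hmeas hK.measurableSet.compl]
    convert measure_empty (μ := ν)
    ext x
    simp
  · intro x hx
    rw [Measure.map_map (by fun_prop) hmeas]
    have h1 : (fun y : Torus n Circle => x * y) ∘ (Subtype.val : K → Torus n Circle) =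
        Subtype.val ∘ fun y : K => (⟨x, hx⟩ : K) * y := by
      funext y
      rfl
    rw [h1, ← Measure.map_map hmeas (by fun_prop)]
    congr 1
    exact map_mul_left_eq_self ν ⟨x, hx⟩

/-! ### characters -/

theorem continuous_ev (k : Weight n) : Continuous fun x : Torus n Circle => ev k x := by
  unfold ev
  fun_prop

theorem continuous_ev' (k : Weight n) :
    Continuous fun x : Torus n Circle => ((ev k x : Circle) : ℂ) :=
  continuous_subtype_val.comp (continuous_ev k)

theorem integral_ev_one {K : Subgroup (Torus n Circle)} {μ : Measure (Torus n Circle)}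
    (h : IsHaar K μ) {k : Weight n} (hk : ∀ x ∈ K, ev k x = 1) :
    ∫ x, ((ev k x : Circle) : ℂ) ∂μ = 1 := by
  have := h.prob
  have h1 : ∀ᵐ x ∂μ, ((ev k x : Circle) : ℂ) = 1 := by
    have h2 : ∀ᵐ x ∂μ, x ∈ (K : Set (Torus n Circle)) := by
      rw [ae_iff]
      exact h.supp
    filter_upwards [h2] with x hx
    rw [hk x hx, Circle.coe_one]
  rw [integral_congr_ae h1]
  simp

theorem integral_ev_zero {K : Subgroup (Torus n Circle)} {μ : Measure (Torus n Circle)}
    (h : IsHaar K μ) {k : Weight n} {x : Torus n Circle} (hx : x ∈ K) (hk : ev k x ≠ 1) :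
    ∫ x, ((ev k x : Circle) : ℂ) ∂μ = 0 := by
  have h1 : ∫ y, ((ev k y : Circle) : ℂ) ∂μ = ((ev k x : Circle) : ℂ) *
      ∫ y, ((ev k y : Circle) : ℂ) ∂μ := by
    conv_lhs => rw [← h.inv x hx]
    rw [integral_map (by fun_prop) (continuous_ev' k).aestronglyMeasurable, ← integral_const_mul]
    refine integral_congr_ae (Eventually.of_forall fun y => ?_)
    simp only
    rw [ev_mul, Circle.coe_mul]
  have h2 : (1 - ((ev k x : Circle) : ℂ)) * ∫ y, ((ev k y : Circle) : ℂ) ∂μ = 0 := by
    rw [sub_mul, one_mul]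
    exact sub_eq_zero.2 h1
  rcases mul_eq_zero.1 h2 with h3 | h3
  · exfalso
    apply hk
    apply Circle.ext
    rw [Circle.coe_one]
    exact (sub_eq_zero.1 h3).symm
  · exact h3

/-- the homomorphisms from the weights to a group are the points of the torus -/
theorem ev_hom {M : Type} [CommGroup M] (φ : Weight n → M) (h0 : φ 0 = 1)
    (hφ : ∀ k l, φ (k + l) = φ k * φ l) (k : Weight n) :
    ev k (φ (1, 0), fun j => φ (0, Pi.single j 1)) = φ k := by
  let Φ : Weight n →+ Additive M :=
    { toFun := fun k => Additive.ofMul (φ k)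
      map_zero' := by rw [h0]; rfl
      map_add' := fun k l => by rw [hφ]; rfl }
  have hz : ∀ (a : ℤ) (k : Weight n), φ (a • k) = φ k ^ a := by
    intro a k
    have := map_zsmul Φ a k
    exact congrArg Additive.toMul this
  have hs : ∀ (s : Finset (Fin n)) (f : Fin n → Weight n), φ (∑ j ∈ s, f j) = ∏ j ∈ s, φ (f j) := by
    intro s f
    have := map_sum Φ f s
    exact congrArg Additive.toMul this
  have hk : k = k.1 • ((1, 0) : Weight n) + ∑ j, k.2 j • ((0, Pi.single j 1) : Weight n) := by
    refine Prod.ext ?_ (funext fun i => ?_)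
    · rw [Prod.fst_add, Prod.fst_sum]
      simp
    · rw [Prod.snd_add, Prod.snd_sum, Pi.add_apply, Finset.sum_apply]
      simp [Pi.single_apply]
  conv_rhs => rw [hk]
  rw [hφ, hz, hs]
  unfold ev
  congr 1
  refine Finset.prod_congr rfl fun j _ => ?_
  rw [hz]

/-- the embedding of `ℚ/ℤ` into the circle -/
theorem exists_embed : ∃ E : AddCircle (1 : ℚ) → Circle, E 0 = 1 ∧ (∀ a b, E (a + b) = E a * E b) ∧
    ∀ a, E a = 1 → a = 0 := by
  let Φ : AddCircle (1 : ℚ) →+ AddCircle (1 : ℝ) :=
    QuotientAddGroup.map (AddSubgroup.zmultiples (1 : ℚ)) (AddSubgroup.zmultiples (1 : ℝ))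
      (Rat.castHom ℝ).toAddMonoidHom (by
        intro q hq
        obtain ⟨m, rfl⟩ := AddSubgroup.mem_zmultiples_iff.1 hq
        rw [AddSubgroup.mem_comap]
        refine AddSubgroup.mem_zmultiples_iff.2 ⟨m, ?_⟩
        simp)
  have e0 : (Φ 0).toCircle = 1 := by rw [map_zero, AddCircle.toCircle_zero]
  have e1 : ∀ a b, (Φ (a + b)).toCircle = (Φ a).toCircle * (Φ b).toCircle := fun a b => by
    rw [map_add, AddCircle.toCircle_add]
  refine ⟨fun a => (Φ a).toCircle, e0, e1, fun a ha => ?_⟩
  have h1 : Φ a = 0 := by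
    apply AddCircle.injective_toCircle one_ne_zero
    rw [AddCircle.toCircle_zero]
    exact ha
  induction a using QuotientAddGroup.induction_on with
  | H q =>
    have h2 : ((q : ℝ) : AddCircle (1 : ℝ)) = 0 := h1
    rw [AddCircle.coe_eq_zero_iff] at h2
    obtain ⟨m, hm⟩ := h2
    change ((q : ℚ) : AddCircle (1 : ℚ)) = 0
    rw [AddCircle.coe_eq_zero_iff]
    refine ⟨m, ?_⟩
    have h3 : ((m • (1 : ℚ) : ℚ) : ℝ) = (q : ℝ) := by
      rw [← hm]
      simp
    exact_mod_cast h3

/-- The annihilator of a subgroup of the weights. -/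
def ann (H : AddSubgroup (Weight n)) : Subgroup (Torus n Circle) where
  carrier := {x | ∀ k ∈ H, ev k x = 1}
  mul_mem' := fun {x y} hx hy k hk => by rw [ev_mul, hx k hk, hy k hk, one_mul]
  one_mem' := fun k _ => ev_one k
  inv_mem' := fun {x} hx k hk => by rw [ev_inv, hx k hk, inv_one]

theorem mem_ann {H : AddSubgroup (Weight n)} {x : Torus n Circle} :
    x ∈ ann H ↔ ∀ k ∈ H, ev k x = 1 := Iff.rfl

theorem closed_ann (H : AddSubgroup (Weight n)) : IsClosed (ann H : Set (Torus n Circle)) := by
  have : (ann H : Set (Torus n Circle)) = ⋂ k ∈ H, {x | ev k x = 1} := by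
    ext x
    simp only [SetLike.mem_coe, mem_ann, Set.mem_iInter, Set.mem_ofPred_eq]
  rw [this]
  exact isClosed_biInter fun k _ => isClosed_eq (continuous_ev k) continuous_const

/-- duality -/
theorem exists_ev_ne {H : AddSubgroup (Weight n)} {k : Weight n} (hk : k ∉ H) :
    ∃ x ∈ ann H, ev k x ≠ 1 := by
  have h1 : (QuotientAddGroup.mk k : Weight n ⧸ H) ≠ 0 := by
    rwa [Ne, QuotientAddGroup.eq_zero_iff]
  obtain ⟨c, hc⟩ := CharacterModule.exists_character_apply_ne_zero_of_ne_zero h1
  obtain ⟨E, hE0, hEadd, hEinj⟩ := exists_embed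
  let c' : (Weight n ⧸ H) →+ AddCircle (1 : ℚ) := c
  set φ : Weight n → Circle := fun l => E (c' (QuotientAddGroup.mk l)) with hφ
  have hφ0 : φ 0 = 1 := by
    simp only [hφ]
    rw [QuotientAddGroup.mk_zero, map_zero, hE0]
  have hφadd : ∀ l m, φ (l + m) = φ l * φ m := by
    intro l m
    simp only [hφ]
    rw [QuotientAddGroup.mk_add, map_add, hEadd]
  refine ⟨(φ (1, 0), fun j => φ (0, Pi.single j 1)), ?_, ?_⟩
  · rw [mem_ann]
    intro l hl
    rw [ev_hom φ hφ0 hφadd]
    simp only [hφ]
    rw [(QuotientAddGroup.eq_zero_iff l).2 hl, map_zero, hE0]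
  · rw [ev_hom φ hφ0 hφadd]
    intro h
    exact hc (hEinj _ h)

end Pool.Agent.V8H35.GS
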