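import Pool.Agent.V8H35.GS.Alg

/-! The theorem of Stone and Weierstrass for the torus; the limit law. -/

set_option autoImplicit false

namespace Pool.Agent.V8H35.GS

open Complex Filter Topology MeasureTheory ComplexConjugate
open Pool.Agent.V8H32.Coh Pool.Agent.V8H32.SymP

section

variable {n : ℕ}

/-- the characters as continuous functions -/
noncomputable def evC (k : Weight n) : C(Torus n Circle, ℂ) :=
  ⟨fun x => ((ev k x : Circle) : ℂ), continuous_ev' k⟩

theorem evC_apply (k : Weight n) (x : Torus n Circle) : evC k x = ((ev k x : Circle) : ℂ) := rfl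

/-- the trigonometric polynomials -/
noncomputable def trigAlg (n : ℕ) : StarSubalgebra ℂ C(Torus n Circle, ℂ) where
  toSubalgebra := Algebra.adjoin ℂ (Set.range (evC (n := n)))
  star_mem' := by
    change Algebra.adjoin ℂ (Set.range (evC (n := n))) ≤
      star (Algebra.adjoin ℂ (Set.range (evC (n := n))))
    refine Algebra.adjoin_le ?_
    rintro - ⟨k, rfl⟩
    refine Algebra.subset_adjoin ⟨-k, ?_⟩
    ext1 x
    rw [evC_apply, ev_neg, Circle.coe_inv_eq_conj]
    rfl

theorem trigAlg_coe :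
    Subalgebra.toSubmodule (trigAlg n).toSubalgebra = Submodule.span ℂ (Set.range (evC (n := n))) := by
  apply Algebra.adjoin_eq_span_of_subset
  refine Set.Subset.trans ?_ Submodule.subset_span
  intro x hx
  refine Submonoid.closure_induction (fun _ => id) ⟨0, ?_⟩ ?_ hx
  · ext1 z
    rw [evC_apply, ev_zero, Circle.coe_one]
    rfl
  · rintro - - - - ⟨k, rfl⟩ ⟨l, rfl⟩
    refine ⟨k + l, ?_⟩
    ext1 z
    rw [evC_apply, ev_add, Circle.coe_mul]
    rfl

theorem trigAlg_sep : (trigAlg n).SeparatesPoints := by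
  intro x y hxy
  have h1 : ∃ k : Weight n, ev k x ≠ ev k y := by
    by_contra hcon
    push Not at hcon
    apply hxy
    refine Prod.ext ?_ (funext fun j => ?_)
    · have := hcon (1, 0)
      simpa [ev] using this
    · have := hcon (0, Pi.single j 1)
      unfold ev at this
      simp only [zpow_zero, one_mul] at this
      have h2 : ∀ z : Torus n Circle, ∏ i, z.2 i ^ (Pi.single j (1 : ℤ) : Fin n → ℤ) i = z.2 j := by
        intro z
        rw [Finset.prod_eq_single j]
        · simp
        · intro i _ hi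
          simp [hi]
        · simp
      rwa [h2, h2] at this
  obtain ⟨k, hk⟩ := h1
  refine ⟨_, ⟨evC k, Algebra.subset_adjoin ⟨k, rfl⟩, rfl⟩, ?_⟩
  intro h
  exact hk (Circle.ext h)

theorem trig_dense {g : Torus n Circle → ℂ} (hg : Continuous g) {η : ℝ} (hη : 0 < η) :
    ∃ (s : Finset (Weight n)) (q : Weight n → ℂ), ∀ x,
      ‖g x - ∑ k ∈ s, q k * ((ev k x : Circle) : ℂ)‖ ≤ η := by
  have h1 : (Submodule.span ℂ (Set.range (evC (n := n)))).topologicalClosure = ⊤ := by
    rw [← trigAlg_coe]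
    exact congrArg (Subalgebra.toSubmodule <| StarSubalgebra.toSubalgebra ·)
      (ContinuousMap.starSubalgebra_topologicalClosure_eq_top_of_separatesPoints (trigAlg n)
        trigAlg_sep)
  set G : C(Torus n Circle, ℂ) := ⟨g, hg⟩ with hG
  have h2 : G ∈ closure (Submodule.span ℂ (Set.range (evC (n := n))) : Set C(Torus n Circle, ℂ)) := by
    rw [← Submodule.topologicalClosure_coe, h1]
    trivial
  obtain ⟨Q, hQ, hd⟩ := Metric.mem_closure_iff.1 h2 η hη
  obtain ⟨c, hc⟩ := (Finsupp.mem_span_range_iff_exists_finsupp).1 hQ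
  refine ⟨c.support, c, fun x => ?_⟩
  have h3 : Q x = ∑ k ∈ c.support, c k * ((ev k x : Circle) : ℂ) := by
    rw [← hc, Finsupp.sum, ContinuousMap.sum_apply]
    rfl
  rw [← h3]
  have h4 := (ContinuousMap.dist_lt_iff hη).1 hd x
  rw [Complex.dist_eq] at h4
  exact h4.le

theorem continuous_tr (f : Weight n →₀ ℤ) : Continuous fun x : Torus n Circle => tr f (toC x) := by
  unfold tr Finsupp.sum
  refine continuous_finsetSum _ fun k _ => ?_
  simp_rw [ev_toC]
  exact continuous_const.mul (continuous_ev' k)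

/-- the limit law -/
theorem law {u : ℕ → Torus n Circle} {r : ℕ} {ψ : Fin r → Weight n → ℝ}
    {μ : Fin r → Measure (Torus n Circle)} {f : Fin r → Weight n →₀ ℤ}
    (hμ : ∀ j, IsProbabilityMeasure (μ j))
    (hf : ∀ j k, ∫ x, ((ev k x : Circle) : ℂ) * tr (f j) (toC x) ∂μ j = (ψ j k : ℂ))
    (hF : ∀ k, LimC (fun p => ∑ w : Weyl n, ((ev k (w.onTorus (u p)) : Circle) : ℂ))
      ((∑ j, ψ j k : ℝ) : ℂ))
    {g : Torus n Circle → ℂ} (hg : Continuous g) :
    LimC (fun p => ∑ w : Weyl n, g (w.onTorus (u p)))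
      (∑ j, ∫ x, g x * tr (f j) (toC x) ∂μ j) := by
  classical
  -- bounds
  have hbd : ∀ j, ∃ C : ℝ, 0 ≤ C ∧ ∀ x, ‖tr (f j) (toC x)‖ ≤ C := by
    intro j
    obtain ⟨C, hC⟩ := (isCompact_range (continuous_tr (f j))).isBounded.exists_norm_le
    exact ⟨C, (norm_nonneg _).trans (hC _ ⟨1, rfl⟩), fun x => hC _ ⟨x, rfl⟩⟩
  choose C hC0 hC using hbd
  set D : ℝ := (Fintype.card (Weyl n) : ℝ) + ∑ j, C j with hD
  have hcard : (0 : ℝ) < Fintype.card (Weyl n) := by exact_mod_cast Fintype.card_pos
  have hDC : 0 ≤ ∑ j, C j := Finset.sum_nonneg fun j _ => hC0 j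
  have hDpos : 0 < D := by linarith
  have key : ∀ η : ℝ, 0 < η → ∃ (g' : Nat.Primes → ℂ) (y : ℂ), LimC g' y ∧
      (∀ p : Nat.Primes, ‖(∑ w : Weyl n, g (w.onTorus (u p))) - g' p‖ ≤ η) ∧
      ‖(∑ j, ∫ x, g x * tr (f j) (toC x) ∂μ j) - y‖ ≤ η := by
    intro η hη
    obtain ⟨s, q, hsq⟩ := trig_dense hg (η := η / D) (by positivity)
    have hint : ∀ (j : Fin r) {g : Torus n Circle → ℂ}, Continuous g →
        Integrable (fun x => g x * tr (f j) (toC x)) (μ j) := by
      intro j g hg
      have := hμ j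
      obtain ⟨B, hB⟩ := (isCompact_range (hg.mul (continuous_tr (f j)))).isBounded.exists_norm_le
      exact Integrable.of_bound (hg.mul (continuous_tr (f j))).aestronglyMeasurable B
        (Eventually.of_forall fun x => hB _ ⟨x, rfl⟩)
    refine ⟨fun p => ∑ k ∈ s, q k * ∑ w : Weyl n, ((ev k (w.onTorus (u p)) : Circle) : ℂ),
      ∑ k ∈ s, q k * ((∑ j, ψ j k : ℝ) : ℂ), LimC.sum s fun k _ => (hF k).const_mul _,
      fun p => ?_, ?_⟩
    · have h1 : ∑ k ∈ s, q k * ∑ w : Weyl n, ((ev k (w.onTorus (u p)) : Circle) : ℂ) =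
          ∑ w : Weyl n, ∑ k ∈ s, q k * ((ev k (w.onTorus (u p)) : Circle) : ℂ) := by
        rw [Finset.sum_comm]
        exact Finset.sum_congr rfl fun k _ => Finset.mul_sum _ _ _
      beta_reduce
      rw [h1, ← Finset.sum_sub_distrib]
      refine (norm_sum_le _ _).trans ?_
      refine (Finset.sum_le_card_nsmul _ _ (η / D) fun w _ => hsq _).trans ?_
      rw [nsmul_eq_mul, Finset.card_univ, mul_div_assoc', div_le_iff₀ hDpos]
      nlinarith
    · have h2 : ∑ k ∈ s, q k * ((∑ j, ψ j k : ℝ) : ℂ) =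
          ∑ j, ∫ x, (∑ k ∈ s, q k * ((ev k x : Circle) : ℂ)) * tr (f j) (toC x) ∂μ j := by
        have h3 : ∀ j, ∫ x, (∑ k ∈ s, q k * ((ev k x : Circle) : ℂ)) * tr (f j) (toC x) ∂μ j =
            ∑ k ∈ s, q k * (ψ j k : ℂ) := by
          intro j
          have h4 : ∀ x : Torus n Circle, (∑ k ∈ s, q k * ((ev k x : Circle) : ℂ)) *
              tr (f j) (toC x) = ∑ k ∈ s, q k * (((ev k x : Circle) : ℂ) * tr (f j) (toC x)) := by
            intro x
            rw [Finset.sum_mul]
            exact Finset.sum_congr rfl fun k _ => by ring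
          simp_rw [h4]
          rw [integral_finsetSum _ fun k _ => (hint j (continuous_ev' k)).const_mul _]
          refine Finset.sum_congr rfl fun k _ => ?_
          rw [integral_const_mul, hf]
        rw [Finset.sum_congr rfl fun j _ => h3 j, Finset.sum_comm]
        refine Finset.sum_congr rfl fun k _ => ?_
        rw [Complex.ofReal_sum, Finset.mul_sum]
      have hQc : Continuous fun x : Torus n Circle => ∑ k ∈ s, q k * ((ev k x : Circle) : ℂ) :=
        continuous_finsetSum _ fun k _ => continuous_const.mul (continuous_ev' k)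
      rw [h2, ← Finset.sum_sub_distrib]
      refine (norm_sum_le _ _).trans ?_
      have h5 : ∀ j ∈ Finset.univ, ‖(∫ x, g x * tr (f j) (toC x) ∂μ j) -
          ∫ x, (∑ k ∈ s, q k * ((ev k x : Circle) : ℂ)) * tr (f j) (toC x) ∂μ j‖ ≤
          η / D * C j := by
        intro j _
        have := hμ j
        rw [← integral_sub (hint j hg) (hint j hQc)]
        have h6 : ∀ x : Torus n Circle, ‖g x * tr (f j) (toC x) -
            (∑ k ∈ s, q k * ((ev k x : Circle) : ℂ)) * tr (f j) (toC x)‖ ≤ η / D * C j := by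
          intro x
          rw [← sub_mul, norm_mul]
          exact mul_le_mul (hsq x) (hC j x) (norm_nonneg _) (by positivity)
        have h7 := norm_integral_le_of_norm_le_const (μ := μ j) (Eventually.of_forall h6)
        simpa using h7
      refine (Finset.sum_le_sum h5).trans ?_
      rw [← Finset.mul_sum, div_mul_eq_mul_div, div_le_iff₀ hDpos]
      nlinarith
  constructor
  · refine Lim.approx hcN lim_one fun η hη => ?_
    obtain ⟨g', y, h1, h2, h3⟩ := key η hη
    refine ⟨fun p => (g' p).re, y.re, h1.re, fun p => ?_, ?_⟩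
    · rw [← Complex.sub_re]
      exact (Complex.abs_re_le_norm _).trans (h2 p)
    · rw [← Complex.sub_re]
      exact (Complex.abs_re_le_norm _).trans h3
  · refine Lim.approx hcN lim_one fun η hη => ?_
    obtain ⟨g', y, h1, h2, h3⟩ := key η hη
    refine ⟨fun p => (g' p).im, y.im, h1.im, fun p => ?_, ?_⟩
    · rw [← Complex.sub_im]
      exact (Complex.abs_im_le_norm _).trans (h2 p)
    · rw [← Complex.sub_im]
      exact (Complex.abs_im_le_norm _).trans h3

end

end Pool.Agent.V8H35.GS
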