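import Mathlib

/-! A meromorphic continuation and the complex logarithm. -/

set_option autoImplicit false

namespace Pool.Agent.V8H35.GS

open Complex Filter Topology

theorem int_const {N : ℝ → ℝ} {δ : ℝ} (hN : ContinuousOn N (Set.Ioo 0 δ))
    (hint : ∀ ε ∈ Set.Ioo 0 δ, ∃ k : ℤ, N ε = k) {a b : ℝ} (ha : a ∈ Set.Ioo 0 δ)
    (hb : b ∈ Set.Ioo 0 δ) : N a = N b := by
  have key : ∀ a b : ℝ, a ∈ Set.Ioo 0 δ → b ∈ Set.Ioo 0 δ → ¬ N a < N b := by
    intro a b ha hb hlt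
    have h1 : IsPreconnected (N '' Set.Ioo 0 δ) := isPreconnected_Ioo.image N hN
    have h2 := h1.Icc_subset ⟨a, ha, rfl⟩ ⟨b, hb, rfl⟩
    obtain ⟨k, hk⟩ := hint a ha
    obtain ⟨l, hl⟩ := hint b hb
    rw [hk, hl] at hlt
    have hkl : k < l := by exact_mod_cast hlt
    have hkl' : (k : ℝ) + 1 ≤ l := by exact_mod_cast hkl
    have h3 : (k : ℝ) + 1 / 2 ∈ Set.Icc (N a) (N b) := by
      rw [hk, hl]
      constructor <;> linarith
    obtain ⟨c, hc, hc'⟩ := h2 h3
    obtain ⟨j, hj⟩ := hint c hc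
    rw [hc'] at hj
    have h4 : (2 * k + 1 : ℤ) = 2 * j := by
      have : (2 * k + 1 : ℝ) = 2 * j := by rw [← hj]; ring
      exact_mod_cast this
    omega
  exact le_antisymm (not_lt.1 (key b a hb ha)) (not_lt.1 (key a b ha hb))

theorem log_inv_atTop : Tendsto (fun ε : ℝ => Real.log (1 / ε)) (𝓝[>] 0) atTop := by
  have h1 := tendsto_neg_atBot_atTop.comp Real.tendsto_log_nhdsGT_zero
  refine h1.congr fun ε => ?_
  rw [one_div, Real.log_inv]
  rfl

/-- The complex logarithm of a meromorphic function on a path to a point. -/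
theorem mero_log {h : ℝ → ℂ} (hc : ContinuousOn h (Set.Ioi 0)) {Λ : ℂ → ℂ} {s₀ : ℂ}
    (hΛ : MeromorphicAt Λ s₀) (heq : ∀ᶠ ε : ℝ in 𝓝[>] 0, Λ (s₀ + ε) = cexp (h ε)) :
    ∃ a : ℤ, meromorphicOrderAt Λ s₀ = ((-a : ℤ) : WithTop ℤ) ∧
      Tendsto (fun ε : ℝ => h ε / (Real.log (1 / ε) : ℝ)) (𝓝[>] 0) (𝓝 (a : ℂ)) := by
  have hpath0 : Tendsto (fun ε : ℝ => s₀ + ε) (𝓝[>] 0) (𝓝 s₀) := by
    have : ContinuousAt (fun ε : ℝ => s₀ + ε) 0 := by fun_prop
    have h2 := this.tendsto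
    simp only [ofReal_zero, add_zero] at h2
    exact h2.mono_left nhdsWithin_le_nhds
  have hpath : Tendsto (fun ε : ℝ => s₀ + ε) (𝓝[>] 0) (𝓝[≠] s₀) := by
    rw [tendsto_nhdsWithin_iff]
    refine ⟨hpath0, ?_⟩
    filter_upwards [self_mem_nhdsWithin] with ε hε
    have hε' : (0 : ℝ) < ε := hε
    simp only [Set.mem_compl_iff, Set.mem_singleton_iff, add_eq_left]
    exact_mod_cast hε'.ne'
  have hfreq : ∃ᶠ z in 𝓝[≠] s₀, Λ z ≠ 0 := by
    refine hpath.frequently (Eventually.frequently ?_)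
    filter_upwards [heq] with ε h1
    rw [h1]
    exact Complex.exp_ne_zero _
  have hnt : meromorphicOrderAt Λ s₀ ≠ ⊤ := by
    rw [Ne, meromorphicOrderAt_eq_top_iff]
    intro h
    exact hfreq (h.mono fun z hz => not_not.2 hz)
  obtain ⟨m, hm⟩ := WithTop.ne_top_iff_exists.1 hnt
  obtain ⟨g, hg, hg0, hgΛ⟩ := (meromorphicOrderAt_eq_int_iff hΛ).1 hm.symm
  refine ⟨-m, by rw [neg_neg]; exact hm.symm, ?_⟩
  -- the bounded part
  set H : ℝ → ℂ := fun ε => h ε - m * (Real.log ε : ℝ) with hH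
  have hHc : ContinuousOn H (Set.Ioi 0) := by
    refine hc.sub (continuousOn_const.mul ?_)
    exact Complex.continuous_ofReal.comp_continuousOn
      (Real.continuousOn_log.mono fun x hx => (ne_of_gt hx : x ≠ 0))
  have hHg : ∀ᶠ ε : ℝ in 𝓝[>] 0, cexp (H ε) = g (s₀ + ε) := by
    filter_upwards [heq, hpath.eventually hgΛ, self_mem_nhdsWithin] with ε h1 h2 h3
    have h3' : (0 : ℝ) < ε := h3
    have hεc : (ε : ℂ) ≠ 0 := by exact_mod_cast h3'.ne'
    simp only [hH]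
    rw [Complex.exp_sub, ← h1, h2, Complex.exp_int_mul, ← Complex.ofReal_exp, Real.exp_log h3']
    rw [add_sub_cancel_left, smul_eq_mul, mul_comm, mul_div_assoc, div_self (zpow_ne_zero _ hεc),
      mul_one]
  have hgt : Tendsto (fun ε : ℝ => g (s₀ + ε)) (𝓝[>] 0) (𝓝 (g s₀)) :=
    hg.continuousAt.tendsto.comp hpath0
  set G : ℝ → ℂ := fun ε => cexp (H ε) / g s₀ with hG
  have hGt : Tendsto G (𝓝[>] 0) (𝓝 1) := by
    have h1 : Tendsto (fun ε : ℝ => g (s₀ + ε) / g s₀) (𝓝[>] 0) (𝓝 (g s₀ / g s₀)) :=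
      hgt.div_const _
    rw [div_self hg0] at h1
    refine h1.congr' ?_
    filter_upwards [hHg] with ε h2
    simp only [hG]
    rw [h2]
  have hev : ∀ᶠ ε : ℝ in 𝓝[>] 0, G ε ∈ Metric.ball (1 : ℂ) (1 / 2) :=
    hGt.eventually (Metric.ball_mem_nhds _ (by norm_num))
  rw [eventually_nhdsWithin_iff, Metric.eventually_nhds_iff] at hev
  obtain ⟨δ, hδ, hball⟩ := hev
  have hball' : ∀ ε ∈ Set.Ioo 0 δ, G ε ∈ Complex.slitPlane := by
    intro ε hε
    have h1 := hball (y := ε) (by rw [Real.dist_eq, sub_zero, abs_of_pos hε.1]; exact hε.2) hε.1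
    rw [Complex.mem_slitPlane_iff]
    left
    rw [Metric.mem_ball, Complex.dist_eq] at h1
    have h2 := (Complex.abs_re_le_norm (G ε - 1)).trans_lt h1
    rw [abs_lt, Complex.sub_re, Complex.one_re] at h2
    linarith [h2.1]
  have hGc : ContinuousOn G (Set.Ioo 0 δ) :=
    (Complex.continuous_exp.comp_continuousOn (hHc.mono fun x hx => hx.1)).div_const _
  have hLc : ContinuousOn (fun ε => Complex.log (G ε)) (Set.Ioo 0 δ) := hGc.clog hball'
  set N : ℝ → ℝ := fun ε => (H ε - Complex.log (g s₀) - Complex.log (G ε)).im / (2 * Real.pi) with hN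
  have hNc : ContinuousOn N (Set.Ioo 0 δ) := by
    refine ContinuousOn.div_const ?_ _
    exact Complex.continuous_im.comp_continuousOn
      (((hHc.mono fun x hx => hx.1).sub continuousOn_const).sub hLc)
  have hexp : ∀ ε ∈ Set.Ioo 0 δ, ∃ k : ℤ,
      H ε - Complex.log (g s₀) - Complex.log (G ε) = k * (2 * Real.pi * I) := by
    intro ε hε
    refine Complex.exp_eq_one_iff.1 ?_
    have hG0 : G ε ≠ 0 := by
      simp only [hG]
      exact div_ne_zero (Complex.exp_ne_zero _) hg0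
    rw [Complex.exp_sub, Complex.exp_sub, Complex.exp_log hg0, Complex.exp_log hG0]
    simp only [hG]
    exact div_self (div_ne_zero (Complex.exp_ne_zero _) hg0)
  have hNint : ∀ ε ∈ Set.Ioo 0 δ, ∃ k : ℤ, N ε = k := by
    intro ε hε
    obtain ⟨k, hk⟩ := hexp ε hε
    refine ⟨k, ?_⟩
    simp only [hN]
    rw [hk]
    have : ((k : ℂ) * (2 * Real.pi * I)).im = k * (2 * Real.pi) := by simp
    rw [this, mul_div_assoc, div_self (by positivity), mul_one]
  have hmid : δ / 2 ∈ Set.Ioo 0 δ := ⟨by positivity, by linarith⟩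
  have hH2 : ∀ ε ∈ Set.Ioo 0 δ, H ε = Complex.log (g s₀) + Complex.log (G ε) +
      (N (δ / 2) : ℂ) * (2 * Real.pi * I) := by
    intro ε hε
    obtain ⟨k, hk⟩ := hexp ε hε
    have h1 := int_const hNc hNint hmid hε
    have h2 : N ε = k := by
      simp only [hN]
      rw [hk]
      have : ((k : ℂ) * (2 * Real.pi * I)).im = k * (2 * Real.pi) := by simp
      rw [this, mul_div_assoc, div_self (by positivity), mul_one]
    rw [h1, h2]
    push_cast
    rw [← hk]
    ring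
  have hHt : Tendsto H (𝓝[>] 0) (𝓝 (Complex.log (g s₀) + 0 +
      (N (δ / 2) : ℂ) * (2 * Real.pi * I))) := by
    have h1 : Tendsto (fun ε => Complex.log (G ε)) (𝓝[>] 0) (𝓝 0) := by
      rw [← Complex.log_one]
      exact hGt.clog (by simp)
    refine ((h1.const_add _).add_const _).congr' ?_
    have : Set.Ioo 0 δ ∈ 𝓝[>] (0 : ℝ) := Ioo_mem_nhdsGT hδ
    filter_upwards [this] with ε hε
    exact (hH2 ε hε).symm
  have hlog : Tendsto (fun ε : ℝ => ((Real.log (1 / ε) : ℝ) : ℂ)⁻¹) (𝓝[>] 0) (𝓝 0) := by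
    have h1 := log_inv_atTop.inv_tendsto_atTop
    have h2 := (Complex.continuous_ofReal.tendsto _).comp h1
    rw [Complex.ofReal_zero] at h2
    refine h2.congr fun ε => ?_
    simp
  have h5 := hHt.mul hlog
  rw [mul_zero] at h5
  have h6 := h5.add_const ((-m : ℤ) : ℂ)
  rw [zero_add] at h6
  refine h6.congr' ?_
  filter_upwards [log_inv_atTop.eventually_gt_atTop 0] with ε h7
  have h8 : ((Real.log (1 / ε) : ℝ) : ℂ) ≠ 0 := by exact_mod_cast h7.ne'
  have h9 : Real.log ε = -Real.log (1 / ε) := by rw [one_div, Real.log_inv, neg_neg]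
  simp only [hH]
  rw [h9]
  field_simp
  push_cast
  ring

end Pool.Agent.V8H35.GS
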