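import Pool.Agent.V8H35.GS.Euler

/-! The logarithm of an Euler product near the edge, and mean values over the primes. -/

set_option autoImplicit false

namespace Pool.Agent.V8H35.GS

open Complex Filter Topology MeasureTheory ComplexConjugate
open Pool.Agent.V8H32.SymP (LL LL_nonneg exp_LL cexp_LL summable_pm cN hcN)
open Pool.Agent.W189.TP Pool.Agent.V8H32.Coh Pool.Agent.W540.BE Pool.Agent.H341R2

/-- complex mean values -/
structure LimC (f : Nat.Primes → ℂ) (x : ℂ) : Prop where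
  re : Lim cN (fun p => (f p).re) x.re
  im : Lim cN (fun p => (f p).im) x.im

section

variable {κ : Type*}

/-- the function of the primes -/
noncomputable def ffg (S : Finset ℕ) (K : Finset κ) (c : κ → ℤ) (y : Nat.Primes → κ → ℂ) (τ : ℝ)
    (p : Nat.Primes) : ℂ :=
  if (p : ℕ) ∈ S then 0 else (∑ k ∈ K, (c k : ℂ) * y p k) * ((p : ℕ) : ℂ) ^ (-(τ * I))

variable {S : Finset ℕ} {K : Finset κ} {c : κ → ℤ} {y : Nat.Primes → κ → ℂ}

theorem summable_two : Summable fun x : Nat.Primes × ℕ =>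
    if x.2 = 0 then (0 : ℝ) else ((((x.1 : ℕ) : ℝ))⁻¹) ^ (x.2 + 1) := by
  have h1 : Summable fun p : Nat.Primes => ((p : ℕ) : ℝ) ^ (-2 : ℝ) :=
    summable_prime_rpow (r := -2) (by norm_num)
  have h2 : Summable fun m : ℕ => 2 * ((1 : ℝ) / 2) ^ m :=
    (summable_geometric_of_lt_one (by norm_num) (by norm_num)).mul_left 2
  refine Summable.of_nonneg_of_le (fun x => ?_) (fun x => ?_)
    (h1.mul_of_nonneg h2 (fun p => by positivity) fun m => by positivity)
  · split_ifs
    · exact le_rfl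
    · positivity
  · have hp2 : (2 : ℝ) ≤ (x.1 : ℕ) := by exact_mod_cast x.1.2.two_le
    have hp0 : (0 : ℝ) < (x.1 : ℕ) := by linarith
    split_ifs with h
    · positivity
    · obtain ⟨l, hl⟩ := Nat.exists_eq_succ_of_ne_zero h
      rw [hl]
      have e1 : ((x.1 : ℕ) : ℝ) ^ (-2 : ℝ) = (((x.1 : ℕ) : ℝ)⁻¹) ^ 2 := by
        rw [Real.rpow_neg hp0.le, inv_pow]
        congr 1
        exact Real.rpow_two _
      have e2 : (((x.1 : ℕ) : ℝ)⁻¹) ≤ 1 / 2 := by
        rw [one_div]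
        exact inv_anti₀ (by norm_num) hp2
      rw [e1]
      calc ((((x.1 : ℕ) : ℝ))⁻¹) ^ (l.succ + 1) = ((((x.1 : ℕ) : ℝ))⁻¹) ^ 2 *
            ((((x.1 : ℕ) : ℝ))⁻¹) ^ l := by
            rw [← pow_add]
            congr 1
            omega
        _ ≤ ((((x.1 : ℕ) : ℝ))⁻¹) ^ 2 * (1 / 2) ^ l := by gcongr
        _ = ((((x.1 : ℕ) : ℝ))⁻¹) ^ 2 * (2 * (1 / 2) ^ l.succ) := by
            rw [Nat.succ_eq_add_one, pow_succ ((1 : ℝ) / 2) l]
            ring

theorem norm_ffg (hy : ∀ p : Nat.Primes, (p : ℕ) ∉ S → ∀ k ∈ K, ‖y p k‖ ≤ 1) (τ : ℝ)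
    (p : Nat.Primes) : ‖ffg S K c y τ p‖ ≤ ∑ k ∈ K, |(c k : ℝ)| := by
  unfold ffg
  split_ifs with hS
  · rw [norm_zero]
    positivity
  · rw [norm_mul, Complex.norm_natCast_cpow_of_pos p.2.pos]
    have h3 : (-(τ * I) : ℂ).re = 0 := by simp
    rw [h3, Real.rpow_zero, mul_one]
    refine (norm_sum_le _ _).trans (Finset.sum_le_sum fun k hk => ?_)
    rw [norm_mul, Complex.norm_intCast]
    exact mul_le_of_le_one_right (abs_nonneg _) (hy p hS k hk)

theorem near (hy : ∀ p : Nat.Primes, (p : ℕ) ∉ S → ∀ k ∈ K, ‖y p k‖ ≤ 1) (τ : ℝ) :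
    ∃ C : ℝ, ∀ ε : ℝ, 0 < ε →
      ‖(∑' x : Nat.Primes × ℕ, cog S K c y x * cexp (-((1 + τ * I + ε) * LL x))) -
        ∑' p : Nat.Primes, ffg S K c y τ p * (((p : ℕ) : ℝ) ^ (-(1 + ε)) : ℝ)‖ ≤ C := by
  classical
  set M : ℝ := ∑ k ∈ K, |(c k : ℝ)| with hM
  have hM0 : 0 ≤ M := by positivity
  refine ⟨∑' x : Nat.Primes × ℕ, M * (if x.2 = 0 then (0 : ℝ) else
    ((((x.1 : ℕ) : ℝ))⁻¹) ^ (x.2 + 1)), fun ε hε => ?_⟩
  have hy' : ∀ p : Nat.Primes, (p : ℕ) ∉ S → ∀ k ∈ K, ‖y p k‖ ≤ ((p : ℕ) : ℝ) ^ (0 : ℝ) := by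
    intro p hS k hk
    rw [Real.rpow_zero]
    exact hy p hS k hk
  have hre : (1 + τ * I + ε : ℂ).re = 1 + ε := by simp
  have hs : (0 : ℝ) + 1 < (1 + τ * I + ε : ℂ).re := by rw [hre]; linarith
  have hsum := summable_cog' (c := c) hy' hs
  set t : Nat.Primes × ℕ → ℂ := fun x => cog S K c y x * cexp (-((1 + τ * I + ε) * LL x)) with ht
  have hbound : ∀ x, ‖t x‖ ≤ M * ((((x.1 : ℕ) : ℝ))⁻¹) ^ (x.2 + 1) := by
    intro x
    have h1 := norm_cog (c := c) hy' x
    rw [Real.rpow_zero, one_pow, mul_one] at h1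
    have h2 : M / ((x.2 : ℝ) + 1) ≤ M := div_le_self hM0 (by
      have : (0 : ℝ) ≤ x.2 := by positivity
      linarith)
    have hp1 : (1 : ℝ) ≤ (x.1 : ℕ) := by exact_mod_cast x.1.2.one_le
    simp only [ht]
    rw [norm_mul, Complex.norm_exp]
    have h3 : (-((1 + τ * I + ε) * (LL x : ℂ))).re = -((1 + ε) * LL x) := by
      simp
    rw [h3, exp_LL]
    refine mul_le_mul (h1.trans h2) (pow_le_pow_left₀ (by positivity) ?_ _) (by positivity) hM0
    rw [← Real.rpow_neg_one]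
    exact Real.rpow_le_rpow_of_exponent_le hp1 (by linarith)
  set t0 : Nat.Primes × ℕ → ℂ := fun x => if x.2 = 0 then t x else 0 with ht0
  set t1 : Nat.Primes × ℕ → ℂ := fun x => if x.2 = 0 then 0 else t x with ht1
  have hsn : Summable fun x => ‖t x‖ := by
    refine (summable_cog (c := c) hy' hs).congr fun x => ?_
    simp only [ht]
    rw [norm_mul, Complex.norm_exp]
    congr 2
    simp
  have hs0 : Summable t0 := by
    refine Summable.of_norm_bounded hsn fun x => ?_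
    simp only [ht0]
    split_ifs
    · exact le_rfl
    · rw [norm_zero]
      exact norm_nonneg _
  have hs1 : Summable t1 := by
    refine Summable.of_norm_bounded hsn fun x => ?_
    simp only [ht1]
    split_ifs
    · rw [norm_zero]
      exact norm_nonneg _
    · exact le_rfl
  have hsplit : (∑' x, t x) = (∑' x, t0 x) + ∑' x, t1 x := by
    rw [← hs0.tsum_add hs1]
    refine tsum_congr fun x => ?_
    simp only [ht0, ht1]
    split_ifs <;> simp
  have h0 : (∑' x, t0 x) = ∑' p : Nat.Primes, ffg S K c y τ p *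
      (((p : ℕ) : ℝ) ^ (-(1 + ε)) : ℝ) := by
    have hinj : Function.Injective fun p : Nat.Primes => (p, (0 : ℕ)) := fun a b h =>
      congrArg Prod.fst h
    rw [← hinj.tsum_eq (f := t0)]
    · refine tsum_congr fun p => ?_
      simp only [ht0, ht, if_true]
      rw [cexp_LL]
      unfold cog ffg
      simp only
      split_ifs with hS
      · rw [zero_mul, zero_mul]
      · have hp : ((p : ℕ) : ℂ) ≠ 0 := by exact_mod_cast p.2.ne_zero
        have hp0 : (0 : ℝ) ≤ ((p : ℕ) : ℝ) := by positivity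
        rw [zero_add, pow_one, Complex.ofReal_cpow hp0]
        simp only [zero_add, pow_one, Nat.cast_zero, div_one]
        rw [mul_assoc]
        congr 1
        push_cast
        rw [← Complex.cpow_add _ _ hp]
        congr 1
        ring
    · intro x hx
      rw [Function.mem_support] at hx
      have hx2 : x.2 = 0 := by
        by_contra h
        apply hx
        simp only [ht0, if_neg h]
      exact ⟨x.1, Prod.ext rfl hx2.symm⟩
  have hgoal : (∑' x, t x) - ∑' p : Nat.Primes, ffg S K c y τ p *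
      (((p : ℕ) : ℝ) ^ (-(1 + ε)) : ℝ) = ∑' x, t1 x := by
    rw [hsplit, h0]
    ring
  rw [hgoal]
  refine tsum_of_norm_bounded (summable_two.mul_left M).hasSum fun x => ?_
  simp only [ht1]
  split_ifs
  · simp
  · exact hbound x

theorem bdd_re {f : Nat.Primes → ℂ} {B : ℝ} (h : ∀ p, ‖f p‖ ≤ B) (p : Nat.Primes) :
    |(f p).re| ≤ B := (Complex.abs_re_le_norm _).trans (h p)

theorem bdd_im {f : Nat.Primes → ℂ} {B : ℝ} (h : ∀ p, ‖f p‖ ≤ B) (p : Nat.Primes) :
    |(f p).im| ≤ B := (Complex.abs_im_le_norm _).trans (h p)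

/-- the complex weighted sum -/
noncomputable def EC (ε : ℝ) (f : Nat.Primes → ℂ) : ℂ :=
  ∑' p : Nat.Primes, f p * (((p : ℕ) : ℝ) ^ (-(1 + ε)) : ℝ)

theorem summable_EC {f : Nat.Primes → ℂ} {B : ℝ} (h : ∀ p, ‖f p‖ ≤ B) {ε : ℝ} (hε : 0 < ε) :
    Summable fun p : Nat.Primes => f p * (((p : ℕ) : ℝ) ^ (-(1 + ε)) : ℝ) := by
  refine Summable.of_norm_bounded
    ((summable_prime_rpow (r := -(1 + ε)) (by linarith)).mul_left B) fun p => ?_
  rw [norm_mul, Complex.norm_real, Real.norm_of_nonneg (by positivity)]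
  exact mul_le_mul_of_nonneg_right (h p) (by positivity)

theorem EC_re {f : Nat.Primes → ℂ} {B : ℝ} (h : ∀ p, ‖f p‖ ≤ B) {ε : ℝ} (hε : 0 < ε) :
    (EC ε f).re = EP cN ε fun p => (f p).re := by
  unfold EC EP
  rw [Complex.re_tsum (summable_EC h hε)]
  exact tsum_congr fun p => by rw [Complex.re_mul_ofReal]; rfl

theorem EC_im {f : Nat.Primes → ℂ} {B : ℝ} (h : ∀ p, ‖f p‖ ≤ B) {ε : ℝ} (hε : 0 < ε) :
    (EC ε f).im = EP cN ε fun p => (f p).im := by
  unfold EC EP
  rw [Complex.im_tsum (summable_EC h hε)]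
  exact tsum_congr fun p => by rw [Complex.im_mul_ofReal]; rfl

theorem tendsto_cplx {l : Filter ℝ} {f : ℝ → ℂ} {x : ℂ}
    (h1 : Tendsto (fun ε => (f ε).re) l (𝓝 x.re)) (h2 : Tendsto (fun ε => (f ε).im) l (𝓝 x.im)) :
    Tendsto f l (𝓝 x) := by
  have h3 := ((Complex.continuous_ofReal.tendsto _).comp h1).add
    (((Complex.continuous_ofReal.tendsto _).comp h2).mul_const I)
  rw [Complex.re_add_im] at h3
  refine h3.congr fun ε => ?_
  simp only [Function.comp_apply]
  exact Complex.re_add_im _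

theorem limC_iff {f : Nat.Primes → ℂ} {x : ℂ} : LimC f x ↔
    (∃ B : ℝ, ∀ p, ‖f p‖ ≤ B) ∧ Tendsto (mean f) (𝓝[>] 0) (𝓝 x) := by
  have e : ∀ ε : ℝ, mean f ε = EC ε f / (lam ε : ℂ) := fun ε => rfl
  constructor
  · intro h
    obtain ⟨B1, hB1⟩ := h.re.bdd
    obtain ⟨B2, hB2⟩ := h.im.bdd
    have hB : ∀ p, ‖f p‖ ≤ B1 + B2 := fun p =>
      (Complex.norm_le_abs_re_add_abs_im _).trans (add_le_add (hB1 p) (hB2 p))
    refine ⟨⟨_, hB⟩, tendsto_cplx ?_ ?_⟩
    · refine h.re.lim.congr' ?_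
      filter_upwards [self_mem_nhdsWithin] with ε hε
      rw [e, Complex.div_ofReal_re, EC_re hB hε]
    · refine h.im.lim.congr' ?_
      filter_upwards [self_mem_nhdsWithin] with ε hε
      rw [e, Complex.div_ofReal_im, EC_im hB hε]
  · rintro ⟨⟨B, hB⟩, h⟩
    refine ⟨⟨⟨B, bdd_re hB⟩, ?_⟩, ⟨⟨B, bdd_im hB⟩, ?_⟩⟩
    · refine ((Complex.continuous_re.tendsto _).comp h).congr' ?_
      filter_upwards [self_mem_nhdsWithin] with ε hε
      simp only [Function.comp_apply]
      rw [e, Complex.div_ofReal_re, EC_re hB hε]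
    · refine ((Complex.continuous_im.tendsto _).comp h).congr' ?_
      filter_upwards [self_mem_nhdsWithin] with ε hε
      simp only [Function.comp_apply]
      rw [e, Complex.div_ofReal_im, EC_im hB hε]

theorem EP_bound {f : Nat.Primes → ℝ} {B : ℝ} (hB : ∀ p, |f p| ≤ B) :
    ∀ᶠ ε : ℝ in 𝓝[>] 0, |EP cN ε f| ≤ B * lam ε := by
  filter_upwards [self_mem_nhdsWithin] with ε hε
  rw [← Pool.Agent.V8H32.SymP.EP_cN_one, abs_le]
  constructor
  · have h8 := EP_le hcN hε (φ := fun p => -f p) (B := B)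
      (fun p => by rw [abs_neg]; exact hB p) (b := B) (fun p => (neg_le_abs _).trans (hB p))
    have h9 : EP cN ε (fun p => -f p) = -EP cN ε f := by
      rw [← neg_one_mul, ← EP_const_mul]
      congr 1
      funext p
      ring
    rw [h9] at h8
    linarith
  · exact EP_le hcN hε (φ := f) (B := B) hB (b := B) (fun p => (le_abs_self _).trans (hB p))

/-- the size of the logarithm near the edge is a mean value -/
theorem size_iff (hy : ∀ p : Nat.Primes, (p : ℕ) ∉ S → ∀ k ∈ K, ‖y p k‖ ≤ 1) (τ : ℝ) (x : ℂ) :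
    LimC (ffg S K c y τ) x ↔ Tendsto (fun ε : ℝ =>
      (∑' x : Nat.Primes × ℕ, cog S K c y x * cexp (-((1 + τ * I + ε) * LL x))) /
        (Real.log (1 / ε) : ℝ)) (𝓝[>] 0) (𝓝 x) := by
  obtain ⟨C, hC⟩ := near (c := c) hy τ
  have hB := norm_ffg (c := c) hy τ
  set ℓ : ℝ → ℂ := fun ε => ∑' x : Nat.Primes × ℕ, cog S K c y x *
    cexp (-((1 + τ * I + ε) * LL x)) with hℓ
  have h1 := size_compare (y := fun ε => EP cN ε fun p => (ffg S K c y τ p).re)
    (ℓ := fun ε => (ℓ ε).re) (C := C) (EP_bound (bdd_re hB)) (by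
      filter_upwards [self_mem_nhdsWithin] with ε hε
      rw [← EC_re hB hε, ← Complex.sub_re]
      refine (Complex.abs_re_le_norm _).trans ?_
      rw [norm_sub_rev]
      exact hC ε hε)
  have h2 := size_compare (y := fun ε => EP cN ε fun p => (ffg S K c y τ p).im)
    (ℓ := fun ε => (ℓ ε).im) (C := C) (EP_bound (bdd_im hB)) (by
      filter_upwards [self_mem_nhdsWithin] with ε hε
      rw [← EC_im hB hε, ← Complex.sub_im]
      refine (Complex.abs_im_le_norm _).trans ?_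
      rw [norm_sub_rev]
      exact hC ε hε)
  constructor
  · intro h
    refine tendsto_cplx ?_ ?_
    · have h3 := h.re.lim.sub h1
      rw [sub_zero] at h3
      refine h3.congr fun ε => ?_
      rw [Complex.div_ofReal_re]
      ring
    · have h3 := h.im.lim.sub h2
      rw [sub_zero] at h3
      refine h3.congr fun ε => ?_
      rw [Complex.div_ofReal_im]
      ring
  · intro h
    refine ⟨⟨⟨_, bdd_re hB⟩, ?_⟩, ⟨⟨_, bdd_im hB⟩, ?_⟩⟩
    · have h3 := ((Complex.continuous_re.tendsto _).comp h).add h1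
      rw [add_zero] at h3
      refine h3.congr fun ε => ?_
      simp only [Function.comp_apply]
      rw [Complex.div_ofReal_re]
      ring
    · have h3 := ((Complex.continuous_im.tendsto _).comp h).add h2
      rw [add_zero] at h3
      refine h3.congr fun ε => ?_
      simp only [Function.comp_apply]
      rw [Complex.div_ofReal_im]
      ring

end

end Pool.Agent.V8H35.GS
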