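import Pool.Agent.V8H35.GS.Near
import Pool.Agent.V8H35.GS.Mero

/-! The Ramanujan conjecture from the real points. -/

set_option autoImplicit false

namespace Pool.Agent.V8H35.GS

open Complex Filter Topology MeasureTheory ComplexConjugate
open Pool.Agent.V8H32.SymP (LL LL_nonneg exp_LL cexp_LL summable_pm cN hcN)
open Pool.Agent.W189.TP

section

variable {n : ℕ} {S : Finset ℕ} {b : ℕ → Torus n ℂˣ} {θ : ℝ}

theorem zpow_bound {x : ℂˣ} {B : ℝ} (h1 : ‖(x : ℂ)‖ ≤ B) (h2 : ‖((x⁻¹ : ℂˣ) : ℂ)‖ ≤ B)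
    (k : ℤ) : ‖((x ^ k : ℂˣ) : ℂ)‖ ≤ B ^ k.natAbs := by
  rcases le_total 0 k with h | h
  · obtain ⟨l, rfl⟩ := Int.eq_ofNat_of_zero_le h
    rw [zpow_natCast, Units.val_pow_eq_pow_val, norm_pow]
    exact pow_le_pow_left₀ (norm_nonneg _) h1 _
  · obtain ⟨l, hl⟩ := Int.eq_ofNat_of_zero_le (neg_nonneg.2 h)
    have h4 : k = -(l : ℤ) := by
      have : -k = (l : ℤ) := hl
      omega
    subst h4
    rw [zpow_neg, ← inv_zpow, zpow_natCast, Units.val_pow_eq_pow_val, norm_pow]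
    have : (-(l : ℤ)).natAbs = l := by simp
    rw [this]
    exact pow_le_pow_left₀ (norm_nonneg _) h2 _

/-- the size of a weight -/
def ws (k : Weight n) : ℕ := k.1.natAbs + ∑ j, (k.2 j).natAbs

theorem norm_ev_le (h : Satake S b θ) {p : ℕ} (hp : p.Prime) (hS : p ∉ S) (k : Weight n) :
    ‖((ev k (b p) : ℂˣ) : ℂ)‖ ≤ ((p : ℝ) ^ θ) ^ ws k := by
  have hp1 : (1 : ℝ) ≤ p := by exact_mod_cast hp.one_le
  have hB : (1 : ℝ) ≤ (p : ℝ) ^ θ := Real.one_le_rpow hp1 h.nonneg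
  unfold ev ws
  rw [Units.val_mul, norm_mul, pow_add]
  refine mul_le_mul (zpow_bound (h.bound₀ p hp hS).1 (h.bound₀ p hp hS).2 _) ?_ (norm_nonneg _)
    (by positivity)
  rw [Units.coe_prod, norm_prod, ← Finset.prod_pow_eq_pow_sum]
  refine Finset.prod_le_prod (fun j _ => norm_nonneg _) fun j _ => ?_
  exact zpow_bound (h.bound p hp hS j).1 (h.bound p hp hS j).2 _

/-- the exponent in the bound for the weights -/
noncomputable def ex (θ : ℝ) (m : Weight n →₀ ℤ) : ℝ := θ * (m.support.sup ws : ℕ)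

theorem norm_ev_ex (h : Satake S b θ) (m : Weight n →₀ ℤ) (p : Nat.Primes) (hS : (p : ℕ) ∉ S)
    (k : Weight n) (hk : k ∈ m.support) :
    ‖((ev k (b p) : ℂˣ) : ℂ)‖ ≤ ((p : ℕ) : ℝ) ^ ex θ m := by
  have hp1 : (1 : ℝ) ≤ (p : ℕ) := by exact_mod_cast p.2.one_le
  refine (norm_ev_le h p.2 hS k).trans ?_
  rw [← Real.rpow_natCast, ← Real.rpow_mul (by positivity)]
  refine Real.rpow_le_rpow_of_exponent_le hp1 ?_
  unfold ex
  refine mul_le_mul_of_nonneg_left ?_ h.nonneg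
  exact_mod_cast Finset.le_sup (f := ws) hk

theorem ex_nonneg (h : Satake S b θ) (m : Weight n →₀ ℤ) : 0 ≤ ex θ m :=
  mul_nonneg h.nonneg (Nat.cast_nonneg _)

/-- the values of the weights -/
def yy (b : ℕ → Torus n ℂˣ) (p : Nat.Primes) (k : Weight n) : ℂ := (ev k (b p) : ℂˣ)

theorem cog_eq (m : Weight n →₀ ℤ) (x : Nat.Primes × ℕ) :
    cog S m.support m (yy b) x = if (x.1 : ℕ) ∈ S then 0 else
      tr m (b x.1 ^ (x.2 + 1)) / ((x.2 : ℂ) + 1) := by
  unfold cog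
  congr 2
  unfold tr Finsupp.sum
  refine Finset.sum_congr rfl fun k _ => ?_
  change _ = (m k : ℂ) * ((ev k (b x.1 ^ (x.2 + 1)) : ℂˣ) : ℂ)
  rw [ev_pow, Units.val_pow_eq_pow_val]
  rfl

theorem logL_eq (m : Weight n →₀ ℤ) (s : ℂ) : logL S b m s =
    ∑' x : Nat.Primes × ℕ, cog S m.support m (yy b) x * cexp (-(s * LL x)) := by
  unfold logL
  refine tsum_congr fun x => ?_
  rw [cog_eq, cexp_LL, ite_mul, zero_mul]

theorem exp_logL (h : Satake S b θ) (m : Weight n →₀ ℤ) {s : ℂ} (hs : ex θ m + 1 < s.re) :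
    LFun S b m s = cexp (logL S b m s) := by
  rw [logL_eq]
  exact (exp_cog (c := m) (norm_ev_ex h m) hs).tprod_eq

/-- the coefficients for `(r ⊗ r^∨)^{⊗ k}` -/
noncomputable def dd (S : Finset ℕ) (b : ℕ → Torus n ℂˣ) (k : ℕ) (x : Nat.Primes × ℕ) : ℝ :=
  if (x.1 : ℕ) ∈ S then 0 else ‖spin (b x.1 ^ (x.2 + 1))‖ ^ (2 * k) / ((x.2 : ℝ) + 1)

theorem dd_nonneg (k : ℕ) (x : Nat.Primes × ℕ) : 0 ≤ dd S b k x := by
  unfold dd
  split_ifs
  · exact le_rfl
  · positivity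

theorem cog_tensor (h : Satake S b θ) (k : ℕ) (x : Nat.Primes × ℕ) :
    cog S (tensor n k).support (tensor n k) (yy b) x = (dd S b k x : ℂ) := by
  rw [cog_eq]
  unfold dd
  split_ifs with hS
  · simp
  · obtain ⟨w, hw⟩ := h.unitary x.1 x.1.2 hS
    rw [tr_tensor, spin_conj (unitary_pow hw (x.2 + 1)), Complex.mul_conj, Complex.normSq_eq_norm_sq]
    push_cast
    rw [← pow_mul]

theorem summable_dd (h : Satake S b θ) {k : ℕ} (hk : RealPoleFree S b (tensor n k)) {t : ℝ}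
    (ht : 1 < t) : Summable fun x : Nat.Primes × ℕ => dd S b k x * Real.exp (-(t * LL x)) := by
  obtain ⟨U, V, σ, hU, hV, hV0, hUV⟩ := hk
  obtain ⟨A, hA1, hA2, hA3⟩ : ∃ A : ℝ, 1 < A ∧ σ < A ∧ ex θ (tensor n k) + 1 < A := by
    refine ⟨|σ| + ex θ (tensor n k) + 2, ?_, ?_, ?_⟩
    · have := abs_nonneg σ
      have := ex_nonneg h (tensor n k)
      linarith
    · have := le_abs_self σ
      have := ex_nonneg h (tensor n k)
      linarith
    · have := abs_nonneg σ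
      linarith
  have hA0 : (0 : ℝ) < A := by linarith
  set d := dd S b k with hd
  have hd0 : ∀ x, 0 ≤ d x := fun x => dd_nonneg k x
  set L' : Nat.Primes × ℕ → ℝ := fun x => A * LL x with hL'
  have hL'0 : ∀ x, 0 ≤ L' x := fun x => mul_nonneg hA0.le (LL_nonneg x)
  have hresc : ∀ (u : ℝ) (x : Nat.Primes × ℕ), u * L' x = (A * u) * LL x := fun u x => by
    simp only [hL']
    ring
  have hsummd : ∀ u : ℝ, A < u → Summable fun x => |d x| * Real.exp (-(u * LL x)) := by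
    intro u hu
    refine (summable_cog (S := S) (K := (tensor n k).support) (c := tensor n k) (y := yy b)
      (norm_ev_ex h (tensor n k)) (hA3.trans hu)).congr fun x => ?_
    rw [cog_tensor h, Complex.norm_real, Real.norm_eq_abs]
  have hopen1 : {s : ℂ | A⁻¹ < s.re} ⊆ (fun s => (A : ℂ) * s) ⁻¹' {s : ℂ | 1 < s.re} := by
    intro s hs
    have hs' : A⁻¹ < s.re := hs
    show 1 < ((A : ℂ) * s).re
    rw [Complex.re_ofReal_mul]
    calc (1 : ℝ) = A * A⁻¹ := (mul_inv_cancel₀ hA0.ne').symm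
      _ < A * s.re := mul_lt_mul_of_pos_left hs' hA0
  have hdiffA : ∀ F : ℂ → ℂ, DifferentiableOn ℂ F {s | 1 < s.re} →
      DifferentiableOn ℂ (fun s => F (A * s)) {s : ℂ | A⁻¹ < s.re} := by
    intro F hF
    exact hF.comp (by fun_prop) hopen1
  have key := extend (d := d) (L := L') hL'0 (s₁ := A⁻¹)
    (fun u hu => by
      refine (hsummd (A * u) ?_).congr fun x => by rw [hresc]
      calc A = A * 1 := (mul_one A).symm
        _ < A * u := mul_lt_mul_of_pos_left hu hA0)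
    (fun u hu => by
      refine summable_zero.congr fun x => ?_
      rw [min_eq_right (hd0 x), abs_zero, zero_mul])
    (U := fun s => U (A * s)) (V := fun s => V (A * s)) (hdiffA _ hU) (hdiffA _ hV)
    (fun u hu => by
      have : (A : ℂ) * (u : ℂ) = ((A * u : ℝ) : ℂ) := by push_cast; rfl
      rw [this]
      refine hV0 _ ?_
      calc (1 : ℝ) = A * A⁻¹ := (mul_inv_cancel₀ hA0.ne').symm
        _ < A * u := mul_lt_mul_of_pos_left hu hA0)
    (fun s hs => by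
      have hAs : A < ((A : ℂ) * s).re := by
        rw [Complex.re_ofReal_mul]
        calc A = A * 1 := (mul_one A).symm
          _ < A * s.re := mul_lt_mul_of_pos_left hs hA0
      have h1 : DS d L' s = logL S b (tensor n k) (A * s) := by
        rw [logL_eq]
        unfold DS
        refine tsum_congr fun x => ?_
        rw [cog_tensor h]
        simp only [hL']
        congr 3
        push_cast
        ring
      rw [h1, ← exp_logL h _ (hA3.trans hAs)]
      exact hUV _ (hA2.trans hAs))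
  have h5 := key (t / A) (by
    rw [inv_eq_one_div]
    exact div_lt_div_of_pos_right ht hA0)
  refine h5.congr fun x => ?_
  rw [abs_of_nonneg (hd0 x), hresc, mul_div_cancel₀ _ hA0.ne']

/-- the powers of finitely many complex numbers are often near to the positive real axis -/
theorem frequently_pow {ι : Type} [Fintype ι] (a : ι → ℂ) (ha : ∀ i, a i ≠ 0) :
    ∃ᶠ m : ℕ in atTop, ∀ i, ‖a i‖ ^ m / 2 ≤ ((a i) ^ m).re := by
  set u : ι → Circle := fun i => ⟨a i / ‖a i‖, by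
    change a i / ‖a i‖ ∈ Metric.sphere (0 : ℂ) 1
    rw [mem_sphere_zero_iff_norm, norm_div, Complex.norm_real, norm_norm,
      div_self (norm_ne_zero_iff.2 (ha i))]⟩ with hu
  have h1 := mapClusterPt_one_atTop_pow u
  have h2 : {v : ι → Circle | ∀ i, (1 / 2 : ℝ) < ((v i : Circle) : ℂ).re} ∈ 𝓝 (1 : ι → Circle) := by
    have hopen : IsOpen {v : ι → Circle | ∀ i, (1 / 2 : ℝ) < ((v i : Circle) : ℂ).re} := by
      rw [Set.ofPred_forall]
      refine isOpen_iInter_of_finite fun i => ?_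
      exact isOpen_lt continuous_const (Complex.continuous_re.comp
        (continuous_subtype_val.comp (continuous_apply i)))
    refine hopen.mem_nhds fun i => ?_
    norm_num
  refine (h1.frequently h2).mono fun m hm i => ?_
  have h3 := hm i
  have hpos : 0 < ‖a i‖ := norm_pos_iff.2 (ha i)
  have h4 : (((u ^ m) i : Circle) : ℂ) = (a i / ‖a i‖) ^ m := by
    rw [Pi.pow_apply]
    simp only [hu]
    rfl
  rw [h4] at h3
  have h5 : (a i) ^ m = ((‖a i‖ ^ m : ℝ) : ℂ) * (a i / ‖a i‖) ^ m := by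
    rw [div_pow]
    push_cast
    rw [mul_div_cancel₀]
    exact pow_ne_zero _ (by exact_mod_cast hpos.ne')
  rw [h5, Complex.re_ofReal_mul]
  have h6 : 0 ≤ ‖a i‖ ^ m := by positivity
  nlinarith

/-- the eigenvalues of the spin representation are at most one in absolute value -/
theorem spin_le_one (h : Satake S b θ) (h0 : ∀ k : ℕ, 1 ≤ k → RealPoleFree S b (tensor n k)) {p : ℕ}
    (hp : p.Prime) (hS : p ∉ S) (J : Finset (Fin n)) :
    ‖((ev (spinWeight J) (b p) : ℂˣ) : ℂ)‖ ≤ 1 := by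
  by_contra hcon
  push Not at hcon
  set R : ℝ := ‖((ev (spinWeight J) (b p) : ℂˣ) : ℂ)‖ with hR
  have hp0 : (0 : ℝ) < p := by exact_mod_cast hp.pos
  have hp1 : (1 : ℝ) ≤ p := by exact_mod_cast hp.one_le
  -- a large power
  obtain ⟨k, hk⟩ := pow_unbounded_of_one_lt (2 * (p : ℝ) ^ 2) hcon
  have hk1 : 1 ≤ k := by
    rcases Nat.eq_zero_or_pos k with rfl | h
    · rw [pow_zero] at hk
      nlinarith
    · exact h
  obtain ⟨q, rfl⟩ : ∃ q : Nat.Primes, (q : ℕ) = p := ⟨⟨p, hp⟩, rfl⟩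
  have hs := summable_dd h (h0 k hk1) (t := 2) (by norm_num)
  have hs2 : Summable fun m : ℕ => ‖spin (b q ^ (m + 1))‖ ^ (2 * k) / ((m : ℝ) + 1) *
      ((((q : ℕ) : ℝ) ^ (-(2 : ℝ))) ^ (m + 1)) := by
    have h3 := hs.comp_injective (i := fun m : ℕ => (q, m)) (fun a b hab => congrArg Prod.snd hab)
    refine h3.congr fun m => ?_
    simp only [Function.comp]
    unfold dd
    rw [if_neg hS, exp_LL]
  have h4 := hs2.tendsto_atTop_zero
  have h4' : Tendsto (fun m : ℕ => ‖spin (b q ^ m)‖ ^ (2 * k) / (m : ℝ) *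
      ((((q : ℕ) : ℝ) ^ (-(2 : ℝ))) ^ m)) atTop (𝓝 0) := by
    rw [← tendsto_add_atTop_iff_nat 1]
    refine h4.congr fun m => ?_
    push_cast
    rfl
  have hfr := frequently_pow (fun J : Finset (Fin n) => ((ev (spinWeight J) (b q) : ℂˣ) : ℂ))
    fun J => Units.ne_zero _
  have hev := h4'.eventually (gt_mem_nhds (show (0 : ℝ) < (1 / 2) ^ (2 * k) by positivity))
  obtain ⟨m, hm, hm2, hm3⟩ := (hfr.and_eventually (hev.and (eventually_ge_atTop 1))).exists
  have hm0 : (0 : ℝ) < m := by exact_mod_cast hm3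
  -- lower bound for the trace
  have h5 : R ^ m / 2 ≤ ‖spin (b q ^ m)‖ := by
    refine le_trans ?_ (Complex.re_le_norm _)
    unfold spin
    rw [Complex.re_sum]
    have h6 : ∀ J' : Finset (Fin n), 0 ≤ (((ev (spinWeight J') (b q ^ m) : ℂˣ) : ℂ)).re := by
      intro J'
      rw [ev_pow, Units.val_pow_eq_pow_val]
      exact le_trans (by positivity) (hm J')
    refine le_trans ?_ (Finset.single_le_sum (f := fun J' : Finset (Fin n) =>
      (((ev (spinWeight J') (b q ^ m) : ℂˣ) : ℂ)).re) (fun J' _ => h6 J') (Finset.mem_univ J))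
    rw [ev_pow, Units.val_pow_eq_pow_val]
    exact hm J
  have hq2 : (((q : ℕ) : ℝ) ^ (-(2 : ℝ))) = (((q : ℕ) : ℝ) ^ 2)⁻¹ := by
    rw [Real.rpow_neg hp0.le]
    congr 1
    exact Real.rpow_two _
  have h7 : (1 / 2 : ℝ) ^ (2 * k) ≤ ‖spin (b q ^ m)‖ ^ (2 * k) / (m : ℝ) *
      ((((q : ℕ) : ℝ) ^ (-(2 : ℝ))) ^ m) := by
    have hR1 : (1 : ℝ) ≤ R ^ k := one_le_pow₀ hcon.le
    have h8 : (2 * ((q : ℕ) : ℝ) ^ 2) ^ m ≤ R ^ (m * (2 * k)) := by
      calc (2 * ((q : ℕ) : ℝ) ^ 2) ^ m ≤ (R ^ k) ^ m := pow_le_pow_left₀ (by positivity) hk.le _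
        _ ≤ (R ^ k * R ^ k) ^ m := pow_le_pow_left₀ (by positivity) (by nlinarith) _
        _ = R ^ (m * (2 * k)) := by
            rw [← pow_add, ← pow_mul]
            congr 1
            ring
    have h9 : (m : ℝ) ≤ 2 ^ m := by
      exact_mod_cast (Nat.lt_two_pow_self (n := m)).le
    rw [hq2, div_mul_eq_mul_div, le_div_iff₀ hm0]
    calc (1 / 2 : ℝ) ^ (2 * k) * m ≤ (1 / 2 : ℝ) ^ (2 * k) * 2 ^ m := by gcongr
      _ = (1 / 2 : ℝ) ^ (2 * k) * ((2 * ((q : ℕ) : ℝ) ^ 2) ^ m * ((((q : ℕ) : ℝ) ^ 2)⁻¹) ^ m) := by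
          rw [mul_pow 2, mul_assoc, ← mul_pow, mul_inv_cancel₀ (by positivity), one_pow, mul_one]
      _ ≤ (1 / 2 : ℝ) ^ (2 * k) * (R ^ (m * (2 * k)) * ((((q : ℕ) : ℝ) ^ 2)⁻¹) ^ m) := by gcongr
      _ = (R ^ m / 2) ^ (2 * k) * ((((q : ℕ) : ℝ) ^ 2)⁻¹) ^ m := by
          rw [div_pow, div_pow, one_pow, ← pow_mul R]
          ring
      _ ≤ ‖spin (b q ^ m)‖ ^ (2 * k) * ((((q : ℕ) : ℝ) ^ 2)⁻¹) ^ m := by gcongr
  exact absurd hm2 (not_lt.2 h7)

/-- **The Ramanujan conjecture.** -/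
theorem ramanujan (h : Satake S b θ) (h0 : ∀ k : ℕ, 1 ≤ k → RealPoleFree S b (tensor n k)) {p : ℕ}
    (hp : p.Prime) (hS : p ∉ S) : ‖((b p).1 : ℂ)‖ = 1 ∧ ∀ j, ‖((b p).2 j : ℂ)‖ = 1 := by
  obtain ⟨w, hw⟩ := h.unitary p hp hS
  have hle := spin_le_one h h0 hp hS
  -- the similitude character
  set ω : Weight n := (2, fun _ => 1) with hω
  have hωw : w.onWeight ω = ω := by
    ext j
    · rfl
    · simp only [hω, Weyl.onWeight]
      split_ifs <;> rfl
  have h1 : ‖((ev ω (b p) : ℂˣ) : ℂ)‖ = 1 := by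
    have h2 := congrArg norm (hw ω)
    rw [hωw, Complex.norm_conj, Units.val_inv_eq_inv_val, norm_inv] at h2
    have hpos : 0 < ‖((ev ω (b p) : ℂˣ) : ℂ)‖ := norm_pos_iff.2 (Units.ne_zero _)
    have h3 : ‖((ev ω (b p) : ℂˣ) : ℂ)‖ * ‖((ev ω (b p) : ℂˣ) : ℂ)‖ = 1 := by
      nth_rw 1 [h2]
      exact inv_mul_cancel₀ hpos.ne'
    nlinarith
  have h2 : ∀ J : Finset (Fin n), ‖((ev (spinWeight J) (b p) : ℂˣ) : ℂ)‖ = 1 := by
    intro J
    have h3 : spinWeight J + spinWeight Jᶜ = ω := by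
      ext j
      · rfl
      · simp only [hω, spinWeight, Prod.snd_add, Pi.add_apply, Finset.mem_compl]
        by_cases hj : j ∈ J <;> simp [hj]
    rw [← h3, ev_add, Units.val_mul, norm_mul] at h1
    have h4 := hle J
    have h5 := hle Jᶜ
    have h6 : 0 ≤ ‖((ev (spinWeight J) (b p) : ℂˣ) : ℂ)‖ := norm_nonneg _
    nlinarith
  have h3 : ‖((b p).1 : ℂ)‖ = 1 := by
    have := h2 ∅
    simpa [ev, spinWeight] using this
  refine ⟨h3, fun j => ?_⟩
  have h4 := h2 {j}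
  have h5 : ev (spinWeight {j}) (b p) = (b p).1 * (b p).2 j := by
    unfold ev spinWeight
    simp only [Finset.mem_singleton, zpow_one]
    congr 1
    rw [Finset.prod_eq_single j]
    · simp
    · intro i _ hi
      simp [hi]
    · simp
  rw [h5, Units.val_mul, norm_mul, h3, one_mul] at h4
  exact h4

end

end Pool.Agent.V8H35.GS
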